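import Mathlib

/-!
Potent groups, and groups that are fully residually finite subgroups of `PGL₂` in
characteristic `p`.
-/

namespace Pool.Agent.P.MP_e9ee98_al

open scoped MatrixGroups

/-- A group is potent if every element `x` has, for every positive `n` dividing its order
(`orderOf x = 0` for infinite order), an image of order exactly `n` in some finite group. -/
def Potent (G : Type) [Group G] : Prop :=
  ∀ x : G, ∀ n : ℕ, 0 < n → n ∣ orderOf x →
    ∃ (H : Type) (_ : Group H) (_ : Finite H) (f : G →* H), orderOf (f x) = n

/-- Every finite set of non-identity elements survives in a homomorphism with finite image to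
`PGL₂` of the algebraic closure of the field with `p` elements. -/
def ResProj (p : ℕ) [Fact p.Prime] (G : Type) [Group G] : Prop :=
  ∀ s : Finset G, (1 : G) ∉ s →
    ∃ f : G →* PGL(2, AlgebraicClosure (ZMod p)), Finite f.range ∧ ∀ g ∈ s, f g ≠ 1

end Pool.Agent.P.MP_e9ee98_al
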