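import Mathlib

/-!
Sets of group elements that survive in one of two kinds of finite images.
-/

namespace Pool.Agent.P.MP_e9ee98_al

open scoped MatrixGroups

/-- No element of `s` is killed by one of the following maps.  Either a pair of homomorphisms, one
with finite image to `PGL₂` of the algebraic closure of the field with `p` elements and one to a
finite `q`-group; or a homomorphism to a finite group `H` with a normal subgroup `M` that is abelian
and killed by `p` and whose quotient `H ⧸ M` is a `q`-group. -/
def Surv (p q : ℕ) [Fact p.Prime] (G : Type) [Group G] (s : Set G) : Prop :=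
  (∃ (Q : Type) (_ : Group Q) (_ : Finite Q) (f : G →* PGL(2, AlgebraicClosure (ZMod p)))
    (π : G →* Q), IsPGroup q Q ∧ Finite f.range ∧ ∀ g ∈ s, f g ≠ 1 ∨ π g ≠ 1) ∨
  (∃ (H : Type) (_ : Group H) (_ : Finite H) (f : G →* H) (M : Subgroup H) (_ : M.Normal),
    (∀ x ∈ M, x ^ p = 1) ∧ (∀ x ∈ M, ∀ y ∈ M, x * y = y * x) ∧ IsPGroup q (H ⧸ M) ∧
      ∀ g ∈ s, f g ≠ 1)

end Pool.Agent.P.MP_e9ee98_al
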