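import Pool.Agent.P.MP_e9ee98_al.Orders
import Pool.Agent.P.MP_e9ee98_al.Defs

namespace Pool.Agent.P.MP_e9ee98_al

open Polynomial Matrix Monoid
open scoped MatrixGroups

variable {ι : Type} {G : ι → Type} [∀ i, Group (G i)]

lemma potent_conj {Γ : Type} [Group Γ] {x y : Γ} (h : IsConj x y) {n : ℕ}
    (hx : ∃ (H : Type) (_ : Group H) (_ : Finite H) (f : Γ →* H), orderOf (f x) = n) :
    ∃ (H : Type) (_ : Group H) (_ : Finite H) (f : Γ →* H), orderOf (f y) = n := by
  obtain ⟨H, _, _, f, hf⟩ := hx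
  obtain ⟨c, hc⟩ := f.map_isConj h
  exact ⟨H, inferInstance, inferInstance, f, by rw [← hf]; exact (SemiconjBy.orderOf_eq _ hc).symm⟩

theorem hyperbolic {p : ℕ} [Fact p.Prime] (hG : ∀ i, ResProj p (G i)) {L : List (Σ i, G i)}
    (hL : Cyc L) {n : ℕ} (hn : 2 ≤ n) :
    ∃ (H : Type) (_ : Group H) (_ : Finite H) (f : CoprodI G →* H), orderOf (f (ev L)) = n := by
  classical
  obtain ⟨l, L', rfl, -, h1, h2⟩ := hL
  set L := l :: L' with hLdef
  let k := AlgebraicClosure (ZMod p)
  -- representations of the factors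
  let s : ∀ i, Finset (G i) := fun i => (L.toFinset.preimage (Sigma.mk i)
    (sigma_mk_injective.injOn))
  have hs : ∀ i g, g ∈ s i ↔ (⟨i, g⟩ : Σ i, G i) ∈ L := fun i g => by simp [s]
  choose f0 hf0 hf0' using fun i => hG i (s i) fun h => h1 _ ((hs i 1).mp h) rfl
  let I : Finset ι := L.toFinset.image Sigma.fst
  let f : ∀ i, G i →* PGL(2, k) := fun i => if i ∈ I then f0 i else 1
  have hfL : ∀ m ∈ L, f m.1 m.2 ≠ 1 := fun m hm => by
    have : m.1 ∈ I := Finset.mem_image_of_mem _ (List.mem_toFinset.mpr hm)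
    simp only [f, if_pos this]
    exact hf0' _ _ ((hs _ _).mpr hm)
  choose lf hlf using (ProjGenLinGroup.mk_surjective : Function.Surjective
    (ProjGenLinGroup.mk : GL (Fin 2) k → PGL(2, k)))
  obtain ⟨h, hh⟩ := exists_conj (L.toFinset.image fun m : Σ i, G i => lf (f m.1 m.2)) (by
    intro A hA
    obtain ⟨m, hm, rfl⟩ := Finset.mem_image.mp hA
    rw [← ProjGenLinGroup.mk_eq_one, hlf]
    exact hfL m (List.mem_toFinset.mp hm))
  obtain ⟨lam, hlam⟩ : ∃ lam : ι → k, Set.InjOn lam I := by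
    obtain ⟨e⟩ : Nonempty (I ↪ k) := by
      obtain ⟨e⟩ := nonempty_embedding_nat I
      exact ⟨e.trans (Infinite.natEmbedding k)⟩
    refine ⟨fun i => if hi : i ∈ I then e ⟨i, hi⟩ else 0, fun i hi j hj hij => ?_⟩
    simp only [dif_pos (Finset.mem_coe.mp hi), dif_pos (Finset.mem_coe.mp hj)] at hij
    exact congrArg Subtype.val (e.injective hij)
  let φ : ∀ i, G i →* PGL(2, k[X]) := fun i =>
    ((MulAut.conj (ProjGenLinGroup.mk (UX (lam i) * cst h))).toMonoidHom.comp
      (ProjGenLinGroup.map C)).comp (f i)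
  let ρ : CoprodI G →* PGL(2, k[X]) := CoprodI.lift φ
  let tr : (Σ i, G i) → k × GL (Fin 2) k := fun m => (lam m.1, h * lf (f m.1 m.2) * h⁻¹)
  have hρ : ∀ L0 : List (Σ i, G i), ρ (ev L0) = ProjGenLinGroup.mk (wm (L0.map tr)) := by
    intro L0
    induction L0 with
    | nil => simp [wm]
    | cons m L0 ih =>
      have : wm ((m :: L0).map tr) = UX (lam m.1) * cst (h * lf (f m.1 m.2) * h⁻¹) *
          (UX (lam m.1))⁻¹ * wm (L0.map tr) := by simp [wm, tr]
      rw [ev_cons, map_mul, ih, this, map_mul]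
      congr 1
      have e : ProjGenLinGroup.map C (f m.1 m.2) = ProjGenLinGroup.mk (cst (lf (f m.1 m.2))) := by
        conv_lhs => rw [← hlf (f m.1 m.2)]
        rfl
      simp [ρ, φ, e, mul_assoc]
  have hsh := wm_shape (L'.map tr) (tr l) (tr l) (by
      intro m hm
      rw [← List.map_cons] at hm
      obtain ⟨m, hm', rfl⟩ := List.mem_map.mp hm
      exact hh _ (Finset.mem_image_of_mem _ (List.mem_toFinset.mpr hm')))
    (by
      have : tr l :: L'.map tr ++ [tr l] = (L ++ [l]).map tr := by simp [hLdef]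
      rw [this, List.isChain_map]
      refine List.IsChain.imp_of_mem_imp ?_ h2
      intro a b ha hb hab e
      have hm : ∀ c ∈ L ++ [l], c.1 ∈ I := fun c hc =>
        Finset.mem_image_of_mem _ (List.mem_toFinset.mpr (by
          rcases List.mem_append.mp hc with hc | hc
          · exact hc
          · rw [List.mem_singleton.mp hc]; simp [hLdef]))
      exact hab (hlam (hm a ha) (hm b hb) e))
  obtain ⟨t, K, hK⟩ := exists_order (p := p) (Nat.succ_pos _) _ hsh hn
  let R := AdjoinRoot ((X - C t) ^ K : k[X])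
  have : Module.Finite k R := ((monic_X_sub_C t).pow K).finite_adjoinRoot
  have : Algebra.IsIntegral (ZMod p) R := Algebra.IsIntegral.trans k
  obtain ⟨H, hH, hS⟩ := exists_finite_subgroup (p := p)
    (⋃ i ∈ I, Set.range fun g => red ((X - C t) ^ K) (φ i g)) (by
      refine I.finite_toSet.biUnion fun i hi => ?_
      have : Finite (f i).range := by
        simp only [f, if_pos (Finset.mem_coe.mp hi)]; exact hf0 i
      have h3 : (Set.range (f i)).Finite := Set.toFinite ((f i).range : Set PGL(2, k))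
      exact (h3.image fun y => red ((X - C t) ^ K)
        (((MulAut.conj (ProjGenLinGroup.mk (UX (lam i) * cst h))).toMonoidHom.comp
          (ProjGenLinGroup.map C)) y)).subset (by
        rintro _ ⟨g, rfl⟩; exact ⟨_, ⟨g, rfl⟩, rfl⟩))
  have hmem : ∀ x, ((red ((X - C t) ^ K)).comp ρ) x ∈ H := by
    intro x
    induction x using CoprodI.induction_left with
    | one => simp
    | @mul i g x ih =>
      rw [map_mul]
      refine H.mul_mem ?_ ih
      by_cases hi : i ∈ I
      · exact hS (Set.mem_biUnion hi ⟨g, by simp [ρ]⟩)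
      · simp [ρ, φ, f, hi]
  refine ⟨H, inferInstance, hH, ((red ((X - C t) ^ K)).comp ρ).codRestrict H hmem, ?_⟩
  rw [← Subgroup.orderOf_coe, ← hK]
  simp only [MonoidHom.codRestrict_apply, MonoidHom.comp_apply, hρ, hLdef, List.map_cons, map_mul,
    map_inv]
  refine SemiconjBy.orderOf_eq
    (red ((X - C t) ^ K) (ProjGenLinGroup.mk (UX (tr l).1)))⁻¹ ?_
  simp [SemiconjBy]

theorem potent_coprodI {p : ℕ} [Fact p.Prime] (h1 : ∀ i, Potent (G i))
    (h2 : ∀ i, ResProj p (G i)) : Potent (CoprodI G) := by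
  classical
  intro x n hn hx
  rcases Nat.eq_or_lt_of_le hn with rfl | hn2
  · exact ⟨PUnit, inferInstance, inferInstance, 1, by simp⟩
  obtain ⟨L, hL, h⟩ := exists_cyc x
  refine potent_conj hL ?_
  obtain ⟨c, hc⟩ := hL
  rw [← SemiconjBy.orderOf_eq _ hc] at hx
  rcases h with rfl | ⟨⟨i, g⟩, rfl⟩ | h
  · simp at hx; omega
  · simp only [ev_cons, ev_nil, mul_one] at hx ⊢
    rw [orderOf_injective CoprodI.of (CoprodI.of_injective i)] at hx
    obtain ⟨H, _, _, f, hf⟩ := h1 i g n hn hx
    exact ⟨H, inferInstance, inferInstance,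
      CoprodI.lift (Function.update (fun _ => 1) i f), by simpa using hf⟩
  · exact hyperbolic h2 h hn2

end Pool.Agent.P.MP_e9ee98_al
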