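import Pool.Agent.P.MP_e9ee98_al.Shape

/-!
Orders of a polynomial matrix in the projective linear groups of truncated polynomial rings.
-/

namespace Pool.Agent.P.MP_e9ee98_al

open Polynomial Matrix
open scoped MatrixGroups

lemma seq_hit {p : ℕ} (hp : p.Prime) (o : ℕ → ℕ) (h1 : ∀ K, o K ∣ o (K + 1))
    (h2 : ∀ K, o (K + 1) ∣ p * o K) {n e : ℕ} (hn : 0 < n) (he : n = o 0 * p ^ e)
    (h3 : ∃ K, ¬ o K ∣ n) : ∃ K, o K = n := by
  classical
  have h0 : 0 < o 0 := Nat.pos_of_mul_pos_right (he ▸ hn)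
  have step : ∀ K, 0 < o K → o (K + 1) = o K ∨ o (K + 1) = o K * p := by
    intro K hK
    obtain ⟨c, hc⟩ := h1 K
    have : c ∣ p := by
      have := h2 K
      rw [hc, mul_comm p] at this
      exact Nat.dvd_of_mul_dvd_mul_left hK this
    rcases hp.eq_one_or_self_of_dvd c this with rfl | rfl
    · left; simpa using hc
    · right; exact hc
  have form : ∀ K, ∃ a, o K = o 0 * p ^ a := by
    intro K
    induction K with
    | zero => exact ⟨0, by simp⟩
    | succ K ih =>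
      obtain ⟨a, ha⟩ := ih
      rcases step K (ha ▸ Nat.mul_pos h0 (pow_pos hp.pos a)) with h | h
      · exact ⟨a, h.trans ha⟩
      · exact ⟨a + 1, by rw [h, ha, pow_succ, mul_assoc]⟩
  have hK := Nat.find_spec h3
  rcases hf : Nat.find h3 with _ | K
  · rw [hf] at hK; exact absurd ⟨_, he⟩ hK
  rw [hf] at hK
  have hK' : o K ∣ n := by
    by_contra h
    have := Nat.find_min' h3 h
    omega
  obtain ⟨a, ha⟩ := form K
  refine ⟨K, ?_⟩
  rcases step K (ha ▸ Nat.mul_pos h0 (pow_pos hp.pos a)) with h | h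
  · exact absurd (h ▸ hK') hK
  rw [h, ha, he, mul_assoc, ← pow_succ] at hK
  rw [ha, he] at hK'
  have l1 : a ≤ e := (Nat.pow_dvd_pow_iff_le_right hp.one_lt).mp (Nat.dvd_of_mul_dvd_mul_left h0 hK')
  have l2 : ¬ a + 1 ≤ e := fun h => hK (Nat.mul_dvd_mul_left _ (pow_dvd_pow _ h))
  rw [ha, he, show a = e by omega]

lemma mem_center_two {R : Type} [CommRing R] (g : GL (Fin 2) R) :
    g ∈ Subgroup.center (GL (Fin 2) R) ↔ g.val 0 1 = 0 ∧ g.val 1 0 = 0 ∧ g.val 0 0 = g.val 1 1 := by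
  rw [GeneralLinearGroup.mem_center_iff_val_mem_range_scalar]
  constructor
  · rintro ⟨a, ha⟩
    rw [← ha]; simp
  · rintro ⟨h1, h2, h3⟩
    refine ⟨g.val 0 0, ?_⟩
    ext i j
    fin_cases i <;> fin_cases j <;> simp [h1, h2, h3]

variable {k : Type} [Field k]

/-- Being scalar modulo `f`. -/
def Sc (f : k[X]) (M : Matrix (Fin 2) (Fin 2) k[X]) : Prop :=
  f ∣ M 0 1 ∧ f ∣ M 1 0 ∧ f ∣ M 0 0 - M 1 1

/-- Reduction modulo `f`. -/
noncomputable def red (f : k[X]) : PGL(2, k[X]) →* PGL(2, AdjoinRoot f) :=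
  ProjGenLinGroup.map (AdjoinRoot.mk f)

lemma order_dvd_iff (f : k[X]) (N : GL (Fin 2) k[X]) (j : ℕ) :
    orderOf (red f (ProjGenLinGroup.mk N)) ∣ j ↔ Sc f (N.val ^ j) := by
  rw [orderOf_dvd_iff_pow_eq_one, ← map_pow, ← map_pow, red, ProjGenLinGroup.map_mk,
    ProjGenLinGroup.mk_eq_one, mem_center_two, Sc, ← Units.val_pow_eq_pow_val]
  simp only [← AdjoinRoot.mk_eq_zero, map_sub, sub_eq_zero]
  rfl

lemma Sc.step {p : ℕ} [Fact p.Prime] [CharP k p] {f : k[X]} {K : ℕ}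
    {M : Matrix (Fin 2) (Fin 2) k[X]} (h : Sc (f ^ (K + 1)) M) : Sc (f ^ (K + 2)) (M ^ p) := by
  obtain ⟨⟨a, ha⟩, ⟨b, hb⟩, ⟨c, hc⟩⟩ := h
  have e : M = M 1 1 • (1 : Matrix (Fin 2) (Fin 2) k[X]) + f ^ (K + 1) • !![c, a; b, 0] := by
    ext i j : 2
    fin_cases i <;> fin_cases j <;> simp [← ha, ← hb, ← hc]
  have hd : f ^ (K + 2) ∣ (f ^ (K + 1)) ^ p := by
    rw [← pow_mul]
    have := (Fact.out : p.Prime).two_le
    exact pow_dvd_pow _ (by nlinarith)
  rw [e, add_pow_char_of_commute p ((Commute.one_left _).smul_left _), _root_.smul_pow,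
    _root_.smul_pow, one_pow]
  refine ⟨?_, ?_, ?_⟩
  · simpa using hd.mul_right _
  · simpa using hd.mul_right _
  · simp only [Matrix.add_apply, Matrix.smul_apply, one_apply_eq, smul_eq_mul, mul_one,
      add_sub_add_left_eq_sub]
    exact dvd_sub (hd.mul_right _) (hd.mul_right _)

lemma pow_formula {M : Matrix (Fin 2) (Fin 2) k} {μ ω : k} (ht : M 0 0 + M 1 1 = μ * (1 + ω))
    (hd : M 0 0 * M 1 1 - M 0 1 * M 1 0 = μ ^ 2 * ω) (j : ℕ) :
    μ • M ^ j = μ ^ (j + 1) • (1 : Matrix (Fin 2) (Fin 2) k) +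
      (μ ^ j * ∑ i ∈ Finset.range j, ω ^ i) • (M - μ • 1) := by
  have hw : (M - μ • 1) * M = (μ * ω) • (M - μ • 1) := by
    ext i j
    fin_cases i <;> fin_cases j <;> simp [Matrix.mul_apply, Fin.sum_univ_two]
    · linear_combination (M 0 0) * ht - hd
    · linear_combination (M 0 1) * ht
    · linear_combination (M 1 0) * ht
    · linear_combination (M 1 1) * ht - hd
  induction j with
  | zero => simp
  | succ j ih =>
    rw [pow_succ M, ← smul_mul_assoc, ih, add_mul, smul_mul_assoc, smul_mul_assoc, hw, one_mul,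
      geom_sum_succ]
    module

lemma scalar_pow_iff {M : Matrix (Fin 2) (Fin 2) k} {μ ω : k} (hμ : μ ≠ 0)
    (ht : M 0 0 + M 1 1 = μ * (1 + ω)) (hd : M 0 0 * M 1 1 - M 0 1 * M 1 0 = μ ^ 2 * ω) (j : ℕ) :
    ((M ^ j) 0 1 = 0 ∧ (M ^ j) 1 0 = 0 ∧ (M ^ j) 0 0 - (M ^ j) 1 1 = 0) ↔
      (∑ i ∈ Finset.range j, ω ^ i = 0 ∨ (M 0 1 = 0 ∧ M 1 0 = 0 ∧ M 0 0 - M 1 1 = 0)) := by
  have h := pow_formula ht hd j
  set s := ∑ i ∈ Finset.range j, ω ^ i
  have e1 : μ * (M ^ j) 0 1 = μ ^ j * s * M 0 1 := by simpa using congrFun (congrFun h 0) 1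
  have e2 : μ * (M ^ j) 1 0 = μ ^ j * s * M 1 0 := by simpa using congrFun (congrFun h 1) 0
  have e3 : μ * ((M ^ j) 0 0 - (M ^ j) 1 1) = μ ^ j * s * (M 0 0 - M 1 1) := by
    have a := congrFun (congrFun h 0) 0
    have b := congrFun (congrFun h 1) 1
    simp at a b
    linear_combination a - b
  have hj : μ ^ j ≠ 0 := pow_ne_zero _ hμ
  constructor
  · rintro ⟨a, b, c⟩
    rw [a] at e1; rw [b] at e2; rw [c] at e3
    by_cases hs : s = 0
    · exact Or.inl hs
    · have := mul_ne_zero hj hs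
      exact Or.inr ⟨by simpa [this] using e1.symm, by simpa [this] using e2.symm,
        by simpa [this] using e3.symm⟩
  · rintro (hs | ⟨a, b, c⟩)
    · rw [hs] at e1 e2 e3
      exact ⟨by simpa [hμ] using e1, by simpa [hμ] using e2, by simpa [hμ] using e3⟩
    · rw [a] at e1; rw [b] at e2; rw [c] at e3
      exact ⟨by simpa [hμ] using e1, by simpa [hμ] using e2, by simpa [hμ] using e3⟩

theorem exists_order {p : ℕ} [Fact p.Prime] [CharP k p] [IsAlgClosed k] {r : ℕ} (hr : 0 < r)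
    (N : GL (Fin 2) k[X]) (hN : Shape r N.val) {n : ℕ} (hn : 2 ≤ n) :
    ∃ (t : k) (K : ℕ), orderOf (red ((X - C t) ^ K) (ProjGenLinGroup.mk N)) = n := by
  have hp : p.Prime := Fact.out
  obtain ⟨a, n', hn', rfl⟩ := Nat.exists_eq_pow_mul_and_not_dvd (n := n) (by omega) p hp.ne_one
  have : NeZero (n' : k) := ⟨fun h => hn' ((CharP.cast_eq_zero_iff k p n').mp h)⟩
  have : NeZero n' := NeZero.of_neZero_natCast k
  obtain ⟨ω, hω⟩ := HasEnoughRootsOfUnity.exists_primitiveRoot k n'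
  have hω0 : ω ≠ 0 := hω.ne_zero (NeZero.ne n')
  obtain ⟨d, hd0, hd⟩ : ∃ d : k, d ≠ 0 ∧ N.val.det = C d := by
    have hu := N.isUnit.map (Matrix.detMonoidHom (n := Fin 2) (R := k[X]))
    obtain ⟨d, hd, h⟩ := Polynomial.isUnit_iff.mp hu
    exact ⟨d, hd.ne_zero, h.symm⟩
  obtain ⟨μ, hμ⟩ := IsAlgClosed.exists_pow_nat_eq (d / ω) two_pos
  have hμ0 : μ ≠ 0 := by
    rintro rfl
    exact div_ne_zero hd0 hω0 (by simpa using hμ.symm)
  have hdeg : (N.val 0 0 + N.val 1 1 - C (μ * (1 + ω))).degree = r := by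
    have h1 : (N.val 0 0 + N.val 1 1).degree = r := by
      rw [degree_add_eq_right_of_degree_lt, hN.2.2.2]
      rw [hN.2.2.2]; exact hN.1
    rw [degree_sub_eq_left_of_degree_lt, h1]
    rw [h1]; exact degree_C_le.trans_lt (by exact_mod_cast hr)
  obtain ⟨t, ht⟩ := IsAlgClosed.exists_root _ (by rw [hdeg]; exact_mod_cast hr.ne')
  set M : Matrix (Fin 2) (Fin 2) k := (evalRingHom t).mapMatrix N.val with hM
  have hMe : ∀ j a b, (M ^ j) a b = ((N.val ^ j) a b).eval t := fun j a b => by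
    rw [hM, ← map_pow]; rfl
  have htr : M 0 0 + M 1 1 = μ * (1 + ω) := by
    have := ht.eq_zero
    simp only [eval_sub, eval_add, eval_C] at this
    exact sub_eq_zero.mp this
  have hdet : M 0 0 * M 1 1 - M 0 1 * M 1 0 = μ ^ 2 * ω := by
    have := congrArg (eval t) hd
    rw [Matrix.det_fin_two] at this
    simp only [eval_sub, eval_mul, eval_C] at this
    rw [hμ, div_mul_cancel₀ _ hω0]
    exact this
  let o : ℕ → ℕ := fun K => orderOf (red ((X - C t) ^ (K + 1)) (ProjGenLinGroup.mk N))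
  have h0 : ∀ j, o 0 ∣ j ↔
      (∑ i ∈ Finset.range j, ω ^ i = 0 ∨ (M 0 1 = 0 ∧ M 1 0 = 0 ∧ M 0 0 - M 1 1 = 0)) := by
    intro j
    rw [← scalar_pow_iff hμ0 htr hdet, order_dvd_iff, Sc]
    simp only [zero_add, pow_one, dvd_iff_isRoot, IsRoot.def, hMe, eval_sub]
  have hbase : ∃ e, p ^ a * n' = o 0 * p ^ e := by
    by_cases h1 : n' = 1
    · subst h1
      have : ω = 1 := by simpa using hω.pow_eq_one
      have h2 : o 0 ∣ p := (h0 p).mpr (Or.inl (by simp [this]))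
      rcases hp.eq_one_or_self_of_dvd _ h2 with h | h
      · exact ⟨a, by simp [h]⟩
      · rcases a with _ | a
        · simp at hn
        · exact ⟨a, by rw [h]; ring⟩
    · have hω1 : ω ≠ 1 := hω.ne_one (by have := NeZero.pos n'; omega)
      have hns : ¬ (M 0 1 = 0 ∧ M 1 0 = 0 ∧ M 0 0 - M 1 1 = 0) := by
        rintro ⟨h1, -, h3⟩
        rw [h1] at hdet
        have : (μ * (ω - 1)) ^ 2 = 0 := by
          linear_combination (-(M 0 0 + M 1 1 + μ * (1 + ω))) * htr + 4 * hdet +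
            (M 0 0 - M 1 1) * h3
        exact mul_ne_zero hμ0 (sub_ne_zero.mpr hω1) (pow_eq_zero_iff two_ne_zero |>.mp this)
      have h2 : ∀ j, o 0 ∣ j ↔ n' ∣ j := by
        intro j
        rw [h0, ← hω.pow_eq_one_iff_dvd, ← sub_eq_zero (a := ω ^ j), ← geom_sum_mul]
        simp [hns, sub_ne_zero.mpr hω1]
      exact ⟨a, by rw [Nat.dvd_antisymm ((h2 _).mpr dvd_rfl) ((h2 _).mp dvd_rfl), mul_comm]⟩
  obtain ⟨e, he⟩ := hbase
  suffices h : ∃ K, o K = p ^ a * n' from let ⟨K, hK⟩ := h; ⟨t, K + 1, hK⟩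
  refine seq_hit hp o (n := p ^ a * n') (e := e) (fun K => ?_) (fun K => ?_) (by omega) he ?_
  · have h := (order_dvd_iff ((X - C t) ^ (K + 2)) N _).mp dvd_rfl
    have hd : (X - C t) ^ (K + 1) ∣ (X - C t) ^ (K + 2) := pow_dvd_pow _ (by omega)
    exact (order_dvd_iff _ N _).mpr ⟨hd.trans h.1, hd.trans h.2.1, hd.trans h.2.2⟩
  · have h := (order_dvd_iff ((X - C t) ^ (K + 1)) N _).mp dvd_rfl
    refine (order_dvd_iff _ N _).mpr ?_
    rw [mul_comm, pow_mul]
    exact h.step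
  · obtain ⟨m, hm⟩ : ∃ m, p ^ a * n' = m + 1 := ⟨p ^ a * n' - 1, by omega⟩
    rw [hm]
    refine ⟨(m + 1) * r, fun h => ?_⟩
    have h1 := ((order_dvd_iff _ N _).mp h).2.2
    have hs := hN.pow m
    have h2 : ((N.val ^ (m + 1)) 0 0 - (N.val ^ (m + 1)) 1 1).degree = ((m + 1) * r : ℕ) := by
      rw [degree_sub_eq_right_of_degree_lt, hs.2.2.2]
      rw [hs.2.2.2]; exact hs.1
    have h3 := degree_le_of_dvd h1 (by
      intro h0; rw [h0, degree_zero] at h2; exact WithBot.bot_ne_coe h2)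
    rw [h2, degree_pow, degree_X_sub_C, nsmul_one] at h3
    have : (m + 1) * r + 1 ≤ (m + 1) * r := by exact_mod_cast h3
    omega

/-- Finitely generated subgroups of `PGL₂` over a ring integral over a prime field are finite. -/
lemma exists_finite_subgroup {p : ℕ} [Fact p.Prime] {R : Type} [CommRing R] [Algebra (ZMod p) R]
    [Algebra.IsIntegral (ZMod p) R] (S : Set PGL(2, R)) (hS : S.Finite) :
    ∃ H : Subgroup PGL(2, R), Finite H ∧ S ⊆ H := by
  classical
  choose s hs using (ProjGenLinGroup.mk_surjective : Function.Surjective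
    (ProjGenLinGroup.mk : GL (Fin 2) R → PGL(2, R)))
  let T : Set R := ⋃ g ∈ S, (Set.range fun ij : Fin 2 × Fin 2 => (s g).val ij.1 ij.2) ∪
    (Set.range fun ij : Fin 2 × Fin 2 => (s g)⁻¹.val ij.1 ij.2)
  have hT : T.Finite := hS.biUnion fun g _ => (Set.finite_range _).union (Set.finite_range _)
  let A := Algebra.adjoin (ZMod p) T
  have : Module.Finite (ZMod p) A :=
    Algebra.finite_adjoin_of_finite_of_isIntegral hT fun x _ => Algebra.IsIntegral.isIntegral x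
  have : Finite A := Module.finite_of_finite (ZMod p)
  have hmul : ∀ g h : GL (Fin 2) R, (∀ i j, g.val i j ∈ A) → (∀ i j, h.val i j ∈ A) →
      ∀ i j, (g * h).val i j ∈ A := by
    intro g h hg hh i j
    rw [Units.val_mul, Matrix.mul_apply]
    exact A.sum_mem fun l _ => A.mul_mem (hg _ _) (hh _ _)
  let H0 : Subgroup (GL (Fin 2) R) :=
    { carrier := {g | (∀ i j, g.val i j ∈ A) ∧ ∀ i j, g⁻¹.val i j ∈ A}
      mul_mem' := fun {g h} hg hh => ⟨hmul g h hg.1 hh.1, by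
        rw [_root_.mul_inv_rev]; exact hmul _ _ hh.2 hg.2⟩
      one_mem' := by
        have : ∀ i j, (1 : GL (Fin 2) R).val i j ∈ A := fun i j => by
          rw [Units.val_one, Matrix.one_apply]
          split_ifs
          · exact A.one_mem
          · exact A.zero_mem
        exact ⟨this, by rw [inv_one]; exact this⟩
      inv_mem' := fun {g} hg => ⟨hg.2, by simpa using hg.1⟩ }
  have : Finite H0 := Finite.of_injective
    (fun g : H0 => (fun i j => ⟨g.1.val i j, g.2.1 i j⟩ : Fin 2 → Fin 2 → A)) (by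
      intro g h e
      refine Subtype.ext (Units.ext ?_)
      ext i j
      exact congrArg Subtype.val (congrFun (congrFun e i) j))
  refine ⟨H0.map ProjGenLinGroup.mk, ?_, fun g hg => ⟨s g, ⟨fun i j => ?_, fun i j => ?_⟩, hs g⟩⟩
  · exact Finite.of_surjective _ (MonoidHom.subgroupMap_surjective _ H0)
  · exact Algebra.subset_adjoin (Set.mem_biUnion hg (Or.inl ⟨(i, j), rfl⟩))
  · exact Algebra.subset_adjoin (Set.mem_biUnion hg (Or.inr ⟨(i, j), rfl⟩))

end Pool.Agent.P.MP_e9ee98_al
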