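import Pool.Agent.P.MP_e9ee98_al.Words

/-!
Degree pattern of two by two polynomial matrices coming from cyclically reduced words.
-/

namespace Pool.Agent.P.MP_e9ee98_al

open Polynomial Matrix
open scoped MatrixGroups

variable {k : Type} [Field k]

/-- First column of degree below `r`, second column of degree at most `r`, lower right entry of
degree exactly `r`. -/
def Shape (r : ℕ) (N : Matrix (Fin 2) (Fin 2) k[X]) : Prop :=
  (N 0 0).degree < r ∧ (N 1 0).degree < r ∧ (N 0 1).degree ≤ r ∧ (N 1 1).degree = r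

lemma deg_lt_le {a b : k[X]} {r s : ℕ} (ha : a.degree < r) (hb : b.degree ≤ s) :
    (a * b).degree < (r + s : ℕ) := by
  rw [degree_mul, Nat.cast_add]
  by_cases h : b = 0
  · subst h; simp only [degree_zero, WithBot.add_bot]; exact WithBot.bot_lt_coe (r + s)
  · exact (WithBot.add_lt_add_right (degree_ne_bot.mpr h) ha).trans_le (by gcongr)

lemma deg_le_lt {a b : k[X]} {r s : ℕ} (ha : a.degree ≤ r) (hb : b.degree < s) :
    (a * b).degree < (r + s : ℕ) := by
  rw [mul_comm, add_comm]; exact deg_lt_le hb ha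

lemma deg_le_le {a b : k[X]} {r s : ℕ} (ha : a.degree ≤ r) (hb : b.degree ≤ s) :
    (a * b).degree ≤ (r + s : ℕ) := by
  rw [degree_mul, Nat.cast_add]; exact add_le_add ha hb

lemma Shape.mul {r s : ℕ} {N N' : Matrix (Fin 2) (Fin 2) k[X]} (h : Shape r N) (h' : Shape s N') :
    Shape (r + s) (N * N') := by
  obtain ⟨a, b, c, d⟩ := h
  obtain ⟨a', b', c', d'⟩ := h'
  simp only [Shape, Matrix.mul_apply, Fin.sum_univ_two]
  refine ⟨?_, ?_, ?_, ?_⟩
  · exact (degree_add_le _ _).trans_lt (max_lt (deg_lt_le a a'.le) (deg_le_lt c b'))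
  · exact (degree_add_le _ _).trans_lt (max_lt (deg_lt_le b a'.le) (deg_le_lt d.le b'))
  · exact (degree_add_le _ _).trans (max_le (deg_lt_le a c').le (deg_le_le c d'.le))
  · have h1 : (N 1 1 * N' 1 1).degree = (r + s : ℕ) := by rw [degree_mul, d, d', Nat.cast_add]
    rw [degree_add_eq_right_of_degree_lt, h1]
    rw [h1]; exact deg_lt_le b c'

lemma Shape.pow {r : ℕ} {N : Matrix (Fin 2) (Fin 2) k[X]} (h : Shape r N) :
    ∀ m : ℕ, Shape ((m + 1) * r) (N ^ (m + 1))
  | 0 => by simpa using h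
  | m + 1 => by
    rw [pow_succ, Nat.succ_mul]
    exact (Shape.pow h m).mul h

/-- Upper unipotent matrix with entry `c X`. -/
noncomputable def UX (c : k) : GL (Fin 2) k[X] := GeneralLinearGroup.upperRightHom (C c * X)

lemma UX_add (c d : k) : UX (c + d) = UX c * UX d := by
  simp only [UX, ← AddChar.map_add_eq_mul, map_add, add_mul]

lemma UX_zero : UX (0 : k) = 1 := by simp [UX]

lemma UX_inv (c : k) : (UX c)⁻¹ = UX (-c) := by
  rw [inv_eq_iff_mul_eq_one, ← UX_add, add_neg_cancel, UX_zero]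

/-- Constant matrices. -/
noncomputable def cst : GL (Fin 2) k →* GL (Fin 2) k[X] := GeneralLinearGroup.map C

lemma shape_one (A : GL (Fin 2) k) (hA : A 1 0 ≠ 0) {c : k} (hc : c ≠ 0) :
    Shape 1 (cst A * UX c : GL (Fin 2) k[X]).val := by
  have e : ∀ i j, (cst A * UX c : GL (Fin 2) k[X]).val i j =
      C (A i 0) * (!![1, C c * X; 0, 1] : Matrix (Fin 2) (Fin 2) k[X]) 0 j +
      C (A i 1) * (!![1, C c * X; 0, 1] : Matrix (Fin 2) (Fin 2) k[X]) 1 j := by
    intro i j
    rw [Units.val_mul, Matrix.mul_apply, Fin.sum_univ_two]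
    rfl
  have h0 : ∀ a : k, (C a).degree < (1 : ℕ) := fun a => degree_C_le.trans_lt (by norm_num)
  have h1 : ∀ a b : k, C a * (C c * X) + C b * 1 = C (a * c) * X + C b := fun a b => by
    simp [mul_assoc]
  refine ⟨?_, ?_, ?_, ?_⟩
  · rw [e]; simpa using h0 _
  · rw [e]; simpa using h0 _
  · rw [e]
    simp only [of_apply, cons_val', cons_val_one, cons_val_fin_one, cons_val_zero]
    rw [h1]; exact degree_linear_le
  · rw [e]
    simp only [of_apply, cons_val', cons_val_one, cons_val_fin_one, cons_val_zero]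
    rw [h1]; exact degree_linear (mul_ne_zero hA hc)

/-- The matrix of a word whose letters are matrices with attached shear parameters. -/
noncomputable def wm (L : List (k × GL (Fin 2) k)) : GL (Fin 2) k[X] :=
  (L.map fun l => UX l.1 * cst l.2 * (UX l.1)⁻¹).prod

lemma wm_shape : ∀ (L : List (k × GL (Fin 2) k)) (l : k × GL (Fin 2) k) (e : k × GL (Fin 2) k),
    (∀ m ∈ l :: L, m.2 1 0 ≠ 0) →
    List.IsChain (fun a b : k × GL (Fin 2) k => a.1 ≠ b.1) (l :: L ++ [e]) →
    Shape (L.length + 1) ((UX l.1)⁻¹ * wm (l :: L) * UX e.1 : GL (Fin 2) k[X]).val := by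
  intro L
  induction L with
  | nil =>
    intro l e h1 h2
    have h3 : l.1 ≠ e.1 := by simpa using h2
    have : (UX l.1)⁻¹ * wm [l] * UX e.1 = cst l.2 * UX (-l.1 + e.1) := by
      simp [wm, UX_add, ← UX_inv, mul_assoc]
    rw [this]
    exact shape_one _ (h1 l (by simp)) (by rw [neg_add_eq_sub]; exact sub_ne_zero.mpr h3.symm)
  | cons m L ih =>
    intro l e h1 h2
    have h3 : l.1 ≠ m.1 ∧ List.IsChain (fun a b : k × GL (Fin 2) k => a.1 ≠ b.1)
        (m :: L ++ [e]) := by simpa using h2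
    have : (UX l.1)⁻¹ * wm (l :: m :: L) * UX e.1 =
        (cst l.2 * UX (-l.1 + m.1)) * ((UX m.1)⁻¹ * wm (m :: L) * UX e.1) := by
      simp [wm, UX_add, ← UX_inv, mul_assoc]
    rw [this, Units.val_mul, List.length_cons, add_comm _ 1]
    exact (shape_one _ (h1 l (by simp))
      (by rw [neg_add_eq_sub]; exact sub_ne_zero.mpr h3.1.symm)).mul
      (ih m e (fun x hx => h1 x (List.mem_cons_of_mem _ hx)) h3.2)

lemma det_wm (L : List (k × GL (Fin 2) k)) : ∃ d : k, d ≠ 0 ∧ (wm L).val.det = C d := by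
  have hu := (wm L).isUnit.map (Matrix.detMonoidHom (n := Fin 2) (R := k[X]))
  obtain ⟨d, hd, h⟩ := Polynomial.isUnit_iff.mp hu
  exact ⟨d, hd.ne_zero, h.symm⟩

/-- A conjugation making all lower left entries of finitely many non scalar matrices non zero. -/
lemma exists_conj [Infinite k] (S : Finset (GL (Fin 2) k))
    (hS : ∀ A ∈ S, A ∉ Subgroup.center (GL (Fin 2) k)) :
    ∃ h : GL (Fin 2) k, ∀ A ∈ S, (h * A * h⁻¹) 1 0 ≠ 0 := by
  classical
  let q : GL (Fin 2) k → k[X] := fun A =>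
    C (A 1 0) + C (A 0 0 - A 1 1) * X - C (A 0 1) * X ^ 2
  have hq : ∀ A ∈ S, q A ≠ 0 := by
    intro A hA h0
    apply hS A hA
    have c0 := congrArg (coeff · 0) h0
    have c1 := congrArg (coeff · 1) h0
    have c2 := congrArg (coeff · 2) h0
    simp [q, coeff_C, coeff_X, -map_sub] at c0 c1 c2
    rw [GeneralLinearGroup.mem_center_iff_val_mem_range_scalar]
    refine ⟨A 0 0, ?_⟩
    ext i j
    fin_cases i <;> fin_cases j <;> simp [c0, c2, sub_eq_zero.mp c1]
  obtain ⟨s, hs⟩ := Infinite.exists_notMem_finset (∏ A ∈ S, q A).roots.toFinset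
  have hP : ∏ A ∈ S, q A ≠ 0 := Finset.prod_ne_zero_iff.mpr hq
  rw [Multiset.mem_toFinset, mem_roots hP, IsRoot.def, eval_prod] at hs
  refine ⟨⟨!![1, 0; s, 1], !![1, 0; -s, 1], by simp [one_fin_two], by simp [one_fin_two]⟩,
    fun A hA h0 => hs (Finset.prod_eq_zero hA ?_)⟩
  simp [Matrix.mul_apply, Fin.sum_univ_two, Matrix.vecMul, dotProduct] at h0
  simp only [q, eval_sub, eval_add, eval_mul, eval_C, eval_X, eval_pow]
  linear_combination h0

end Pool.Agent.P.MP_e9ee98_al
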