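import Mathlib

/-!
A complete valued field over a field with a group action.
-/

namespace Pool.Agent.P.MP_e9ee98_al

open scoped LaurentSeries WithZero

/-- Coefficientwise image of a Laurent series. -/
noncomputable def lsMap {E : Type} [Field E] (f : E →+* E) : E⸨X⸩ →+* E⸨X⸩ where
  toFun x := x.map f
  map_one' := HahnSeries.map_one f.toMonoidWithZeroHom
  map_mul' _ _ := HahnSeries.map_mul f.toNonUnitalRingHom
  map_zero' := by ext; simp
  map_add' _ _ := by ext; simp

lemma lsMap_coeff {E : Type} [Field E] (f : E →+* E) (x : E⸨X⸩) (n : ℤ) :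
    (lsMap f x).coeff n = f (x.coeff n) := rfl

theorem exists_complete (E : Type) [Field E] {Γ : Type} [Group Γ] (α : Γ →* (E →+* E)) :
    ∃ (K : Type) (_ : NontriviallyNormedField K) (_ : IsUltrametricDist K) (_ : CompleteSpace K)
      (ι : E →+* K) (β : Γ →* (K →+* K)) (t : K), t ≠ 0 ∧ ‖t‖ < 1 ∧ (∀ c, ‖ι c‖ ≤ 1) ∧
      (∀ γ, β γ t = t) ∧ (∀ γ c, β γ (ι c) = ι (α γ c)) ∧ ∀ γ x, ‖β γ x‖ = ‖x‖ := by
  have hd : (Valued.v : Valuation E⸨X⸩ ℤᵐ⁰).IsRankOneDiscrete := by
    rw [LaurentSeries.valuation_def]; infer_instance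
  let : (Valued.v : Valuation E⸨X⸩ ℤᵐ⁰).RankOne :=
    Valuation.IsRankOneDiscrete.rankOne _ (e := 2) one_lt_two
  let := Valued.toNontriviallyNormedField E⸨X⸩ ℤᵐ⁰
  let β : Γ →* (E⸨X⸩ →+* E⸨X⸩) :=
    { toFun γ := lsMap (α γ)
      map_one' := by ext x n; simp [lsMap_coeff]
      map_mul' γ δ := by ext x n; simp [lsMap_coeff] }
  have hle : ∀ (f : E →+* E) (x : E⸨X⸩), Valued.v (lsMap f x) ≤ Valued.v x := by
    intro f x
    rcases eq_or_ne x 0 with rfl | hx
    · simp
    · have h0 : Valued.v x ≠ 0 := by simpa using hx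
      rw [LaurentSeries.valuation_le_iff_coeff_lt_log_eq_zero _ h0]
      intro n hn
      rw [lsMap_coeff, (LaurentSeries.valuation_le_iff_coeff_lt_log_eq_zero _ h0).1 le_rfl n hn,
        map_zero]
  refine ⟨E⸨X⸩, inferInstance, inferInstance, inferInstance, HahnSeries.C, β,
    HahnSeries.single 1 1, by simp, ?_, fun c => ?_, fun γ => ?_, fun γ c => ?_, fun γ x => ?_⟩
  · rw [Valued.toNormedField.norm_lt_one_iff, LaurentSeries.valuation_single_zpow, ← WithZero.exp_zero,
      WithZero.exp_lt_exp]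
    norm_num
  · rw [Valued.toNormedField.norm_le_one_iff, ← WithZero.exp_zero, ← neg_zero,
      LaurentSeries.valuation_le_iff_coeff_lt_eq_zero]
    intro n hn
    simp [hn.ne]
  · ext n
    simp [β, lsMap_coeff, HahnSeries.coeff_single, apply_ite]
  · exact HahnSeries.map_C c (α γ)
  · refine le_antisymm (Valued.toNormedField.norm_le_iff.2 (hle _ _)) ?_
    have e : β γ⁻¹ (β γ x) = x := by
      rw [← RingHom.comp_apply, ← RingHom.mul_def, ← map_mul, inv_mul_cancel, map_one]; rfl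
    conv_lhs => rw [← e]
    exact Valued.toNormedField.norm_le_iff.2 (hle _ _)

end Pool.Agent.P.MP_e9ee98_al
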