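import Mathlib

/-!
The dimension of a generic deformation of the algebra `K[X] / (X i ^ d)`.
-/

namespace Pool.Agent.P.MP_e9ee98_al

set_option linter.unusedSectionVars false

open MvPolynomial
open scoped Pointwise

variable {σ : Type} [Fintype σ] {d : ℕ}

section
variable {R : Type} [CommRing R]

/-- Replace `X i ^ d` by `g i` in a monomial. -/
noncomputable def thm (d : ℕ) (g : σ → MvPolynomial σ R) (c : σ →₀ ℕ) : MvPolynomial σ R :=
  ∏ i, g i ^ (c i / d) * X i ^ (c i % d)

/-- Replace `X i ^ d` by `g i` in every monomial. -/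
noncomputable def th (d : ℕ) (g : σ → MvPolynomial σ R) :
    MvPolynomial σ R →ₗ[R] MvPolynomial σ R := (basisMonomials σ R).constr R (thm d g)

lemma th_monomial (g : σ → MvPolynomial σ R) (c : σ →₀ ℕ) (r : R) :
    th d g (monomial c r) = r • thm d g c := by
  have : monomial c r = r • basisMonomials σ R c := by simp [smul_monomial]
  rw [this, map_smul, th, Module.Basis.constr_basis]

lemma th_mul (hd : 0 < d) (g : σ → MvPolynomial σ R) (i : σ) (f : MvPolynomial σ R) :
    th d g (X i ^ d * f) = g i * th d g f := by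
  classical
  induction f using MvPolynomial.induction_on' with
  | add p q hp hq => rw [mul_add, map_add, map_add, mul_add, hp, hq]
  | monomial c r =>
    rw [X_pow_eq_monomial, monomial_mul, one_mul, th_monomial, th_monomial, mul_smul_comm]
    congr 1
    have e : g i = ∏ j, if j = i then g i else 1 := by simp
    rw [thm, thm, e, ← Finset.prod_mul_distrib]
    refine Finset.prod_congr rfl fun j _ => ?_
    rw [Finsupp.add_apply, Finsupp.single_apply]
    by_cases h : j = i
    · subst h
      rw [if_pos rfl, if_pos rfl, Nat.add_div_left _ hd, Nat.add_mod_left, pow_succ', mul_assoc]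
    · rw [if_neg h, if_neg (Ne.symm h), zero_add, one_mul]

lemma thm_deg {g : σ → MvPolynomial σ R} (hg : ∀ i, (g i).totalDegree ≤ d) (c : σ →₀ ℕ) :
    (thm d g c).totalDegree ≤ c.sum fun _ e => e := by
  rcases subsingleton_or_nontrivial R with h | h
  · rw [Subsingleton.elim (thm d g c) 0]; simp
  rw [Finsupp.sum_fintype _ _ fun _ => rfl]
  refine (totalDegree_finsetProd _ _).trans (Finset.sum_le_sum fun i _ => ?_)
  refine (totalDegree_mul _ _).trans ?_
  rw [totalDegree_X_pow]
  conv_rhs => rw [← Nat.div_add_mod' (c i) d]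
  exact Nat.add_le_add_right ((totalDegree_pow _ _).trans (Nat.mul_le_mul_left _ (hg i))) _

lemma mem_of_monomials {n : ℕ} {S : Type} [CommRing S] [Algebra S R]
    (P : Submodule S (MvPolynomial σ R)) {f : MvPolynomial σ R} (hf : f.totalDegree ≤ n)
    (h : ∀ c : σ →₀ ℕ, (c.sum fun _ e => e) ≤ n → monomial c (f.coeff c) ∈ P) : f ∈ P := by
  rw [f.as_sum]
  exact P.sum_mem fun c hc => h c ((le_totalDegree hc).trans hf)

lemma th_mem {g : σ → MvPolynomial σ R} (hg : ∀ i, (g i).totalDegree ≤ d) {n : ℕ} :
    ∀ f ∈ restrictTotalDegree σ R n, th d g f ∈ restrictTotalDegree σ R n := fun f hf =>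
  mem_of_monomials ((restrictTotalDegree σ R n).comap (th d g))
    ((mem_restrictTotalDegree _ _ _).1 hf) fun c hc => by
      rw [Submodule.mem_comap, th_monomial]
      exact Submodule.smul_mem _ _ ((mem_restrictTotalDegree _ _ _).2 ((thm_deg hg c).trans hc))

lemma monomial_mem {n : ℕ} {c : σ →₀ ℕ} (hc : (c.sum fun _ e => e) ≤ n) (r : R) :
    monomial c r ∈ restrictTotalDegree σ R n :=
  (mem_restrictTotalDegree _ _ _).2 ((totalDegree_monomial_le _ _).trans hc)

lemma deg_def (a : R) {G : σ → MvPolynomial σ R} (hG : ∀ i, (G i).totalDegree ≤ d) (i : σ) :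
    (X i ^ d + C a * G i).totalDegree ≤ d := by
  refine (totalDegree_add _ _).trans (max_le ?_ ?_)
  · rw [X_pow_eq_monomial]
    exact (totalDegree_monomial_le _ _).trans (by simp)
  · exact (totalDegree_mul _ _).trans (by simpa using hG i)

lemma th_nakayama (a : R) {G : σ → MvPolynomial σ R} (hG : ∀ i, (G i).totalDegree ≤ d) (n : ℕ) :
    ∃ r : R, r - 1 ∈ Ideal.span {a} ∧ r • restrictTotalDegree σ R n ≤
      (restrictTotalDegree σ R n).map (th d fun i => X i ^ d + C a * G i) := by
  set g : σ → MvPolynomial σ R := fun i => X i ^ d + C a * G i with hg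
  refine Submodule.exists_sub_one_mem_and_smul_le_of_fg_of_le_sup
    (N' := restrictTotalDegree σ R n) (Module.Finite.iff_fg.1 inferInstance) le_rfl fun f hf => ?_
  refine mem_of_monomials _ ((mem_restrictTotalDegree _ _ _).1 hf) fun c hc => ?_
  have e : monomial c (f.coeff c) = th d g (monomial c (f.coeff c)) -
      f.coeff c • (thm d g c - monomial c 1) := by
    rw [th_monomial, smul_sub, smul_monomial, smul_eq_mul, mul_one, sub_sub_cancel]
  rw [e]
  refine Submodule.sub_mem _ (Submodule.mem_sup_left ⟨_, monomial_mem hc _, rfl⟩)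
    (Submodule.mem_sup_right (Submodule.smul_mem _ _ ?_))
  obtain ⟨h, hh⟩ : C a ∣ thm d g c - monomial c 1 := by
    rw [← Ideal.mem_span_singleton, ← Ideal.Quotient.eq, monomial_eq, C_1, one_mul,
      Finsupp.prod_fintype _ _ fun _ => pow_zero _, thm, map_prod, map_prod]
    refine Finset.prod_congr rfl fun i _ => ?_
    have h0 : Ideal.Quotient.mk (Ideal.span {C a}) (C a * G i) = 0 :=
      Ideal.Quotient.eq_zero_iff_mem.2 (Ideal.mem_span_singleton.2 (dvd_mul_right _ _))
    rw [map_mul, map_pow, hg, map_add, h0, add_zero, ← map_pow, ← map_mul, ← pow_mul, ← pow_add,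
      Nat.div_add_mod]
  refine mem_of_monomials (n := n) _ ((mem_restrictTotalDegree _ _ _).1 (Submodule.sub_mem _
    ((mem_restrictTotalDegree _ _ _).2 ((thm_deg (deg_def a hG) c).trans hc))
    (monomial_mem hc _))) fun c' hc' => ?_
  rw [hh, coeff_C_mul, ← smul_eq_mul, ← smul_monomial]
  exact Submodule.smul_mem_smul (Ideal.mem_span_singleton_self a) (monomial_mem hc' _)

lemma map_th {S : Type} [CommRing S] (φ : R →+* S) (g : σ → MvPolynomial σ R)
    (f : MvPolynomial σ R) : map φ (th d g f) = th d (fun i => map φ (g i)) (map φ f) := by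
  induction f using MvPolynomial.induction_on' with
  | add p q hp hq => simp only [map_add, hp, hq]
  | monomial c r =>
    rw [map_monomial, th_monomial, th_monomial, smul_eq_C_mul, smul_eq_C_mul, map_mul, map_C]
    simp [thm]

end

variable {K O : Type} [Field K] [CommRing O]

lemma th_bijective (φ : O →+* K) (a : O) (ha : ∀ r : O, r - 1 ∈ Ideal.span {a} → φ r ≠ 0)
    {G : σ → MvPolynomial σ O} (hG : ∀ i, (G i).totalDegree ≤ d) :
    Function.Bijective (th d fun i => map φ (X i ^ d + C a * G i)) := by
  set g : σ → MvPolynomial σ K := fun i => map φ (X i ^ d + C a * G i) with hg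
  have hdeg : ∀ f : MvPolynomial σ O, (map φ f).totalDegree ≤ f.totalDegree := fun f =>
    Finset.sup_mono (support_map_subset φ f)
  have hgd : ∀ i, (g i).totalDegree ≤ d := fun i => (hdeg _).trans (deg_def a hG i)
  have hs : ∀ n, ∀ f ∈ restrictTotalDegree σ K n,
      f ∈ (restrictTotalDegree σ K n).map (th d g) := by
    intro n f hf
    obtain ⟨r, hr, h⟩ := th_nakayama a hG n
    refine mem_of_monomials _ ((mem_restrictTotalDegree _ _ _).1 hf) fun c hc => ?_
    obtain ⟨y, hy, e⟩ := h (Submodule.smul_mem_pointwise_smul _ r _ (monomial_mem hc 1))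
    have e2 := congrArg (map φ) e
    rw [map_th, smul_monomial, map_monomial, smul_eq_mul, mul_one] at e2
    refine ⟨(f.coeff c / φ r) • map φ y, Submodule.smul_mem _ _ ((mem_restrictTotalDegree _ _ _).2
      ((hdeg y).trans ((mem_restrictTotalDegree _ _ _).1 hy))), ?_⟩
    rw [map_smul, e2, smul_monomial, smul_eq_mul, div_mul_cancel₀ _ (ha r hr)]
  refine ⟨(injective_iff_map_eq_zero _).2 fun f hf => ?_, fun f => ?_⟩
  · have h1 : Function.Surjective ((th d g).restrict (th_mem hgd (n := f.totalDegree))) := by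
      rintro ⟨y, hy⟩
      obtain ⟨z, hz, e⟩ := hs _ y hy
      exact ⟨⟨z, hz⟩, Subtype.ext e⟩
    have h2 := LinearMap.injective_iff_surjective.2 h1
    exact congrArg Subtype.val ((injective_iff_map_eq_zero _).1 h2
      ⟨f, (mem_restrictTotalDegree _ _ _).2 le_rfl⟩ (Subtype.ext hf))
  · obtain ⟨z, -, e⟩ := hs _ f ((mem_restrictTotalDegree _ _ _).2 le_rfl)
    exact ⟨z, e⟩

lemma finrank_of_bijective (hd : 0 < d) {g : σ → MvPolynomial σ K}
    (hb : Function.Bijective (th d g)) :
    Module.finrank K (MvPolynomial σ K ⧸ Ideal.span (Set.range g)) = d ^ Fintype.card σ := by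
  classical
  let ex : (σ → Fin d) → σ →₀ ℕ := fun a => Finsupp.equivFunOnFinite.symm fun i => (a i : ℕ)
  have hex : Function.Injective ex := fun a b h => funext fun i =>
    Fin.ext (DFunLike.congr_fun h i)
  let P : MvPolynomial σ K →ₗ[K] (σ → Fin d) → K := LinearMap.pi fun a => lcoeff K (ex a)
  have hP : Function.Surjective P := fun v => ⟨∑ a, monomial (ex a) (v a), funext fun b => by
    simp [P, coeff_monomial, hex.eq_iff]⟩
  have hk : ∀ f, P f = 0 ↔ f ∈ Ideal.span (Set.range fun i : σ => (X i ^ d : MvPolynomial σ K)) := by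
    intro f
    have e : (Set.range fun i : σ => (X i ^ d : MvPolynomial σ K)) =
        (fun s => monomial s (1 : K)) '' Set.range fun i : σ => Finsupp.single i d := by
      rw [← Set.range_comp]
      exact congrArg Set.range (funext fun i => X_pow_eq_monomial)
    rw [e, mem_ideal_span_monomial_image]
    constructor
    · intro h c hc
      by_contra h1
      push Not at h1
      have h2 : ∀ i, c i < d := fun i => by
        have := h1 _ ⟨i, rfl⟩
        rwa [Finsupp.single_le_iff, not_le] at this
      have h3 : ex (fun i => ⟨c i, h2 i⟩) = c := Finsupp.ext fun _ => rfl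
      have h4 := congrFun h fun i => ⟨c i, h2 i⟩
      exact mem_support_iff.1 hc (by simpa [P, h3] using h4)
    · intro h
      funext a
      by_contra h1
      obtain ⟨_, ⟨i, rfl⟩, h2⟩ := h (ex a) (mem_support_iff.2 h1)
      exact absurd (Finsupp.single_le_iff.1 h2) (not_le.2 (a i).2)
  let T := LinearEquiv.ofBijective _ hb
  have hker : LinearMap.ker (P ∘ₗ T.symm.toLinearMap) =
      (Ideal.span (Set.range g)).restrictScalars K := by
    ext f
    obtain ⟨f, rfl⟩ := T.surjective f
    rw [LinearMap.mem_ker, LinearMap.comp_apply, LinearEquiv.coe_coe, T.symm_apply_apply, hk,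
      Submodule.restrictScalars_mem, Ideal.mem_span_range_iff_exists_fun,
      Ideal.mem_span_range_iff_exists_fun]
    have e : ∀ c : σ → MvPolynomial σ K, T (∑ i, c i * X i ^ d) = ∑ i, T (c i) * g i := fun c => by
      rw [map_sum]
      exact Finset.sum_congr rfl fun i _ => by
        rw [mul_comm, mul_comm _ (g i)]; exact th_mul hd g i _
    constructor
    · rintro ⟨c, rfl⟩
      exact ⟨_, (e c).symm⟩
    · rintro ⟨c, h⟩
      refine ⟨fun i => T.symm (c i), T.injective ?_⟩
      rw [e, ← h]
      simp
  have h1 := (LinearMap.quotKerEquivOfSurjective (P ∘ₗ T.symm.toLinearMap)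
    (hP.comp T.symm.surjective)).finrank_eq
  rw [hker, (Submodule.Quotient.restrictScalarsEquiv K (Ideal.span (Set.range g))).finrank_eq] at h1
  simpa using h1

end Pool.Agent.P.MP_e9ee98_al
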