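import Mathlib

/-!
Twisted permutation actions on polynomial rings, and stable maximal ideals of finite algebras.
-/

namespace Pool.Agent.P.MP_e9ee98_al

open MvPolynomial

variable {Γ : Type} [Group Γ]

/-- Permute the variables by left multiplication and act on the coefficients. -/
noncomputable def tw {R : Type} [CommRing R] (α : Γ →* (R →+* R)) :
    Γ →* (MvPolynomial Γ R →+* MvPolynomial Γ R) where
  toFun γ := eval₂Hom (C.comp (α γ)) fun δ => X (γ * δ)
  map_one' := by
    refine ringHom_ext (fun c => ?_) fun δ => ?_ <;> simp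
  map_mul' γ δ := by
    refine ringHom_ext (fun c => ?_) fun δ => ?_ <;> simp [mul_assoc]

@[simp] lemma tw_C {R : Type} [CommRing R] (α : Γ →* (R →+* R)) (γ : Γ) (c : R) :
    tw α γ (C c) = C (α γ c) := by simp [tw]

@[simp] lemma tw_X {R : Type} [CommRing R] (α : Γ →* (R →+* R)) (γ δ : Γ) :
    tw α γ (X δ) = X (γ * δ) := by simp [tw]

lemma act_mul {R : Type} [CommRing R] (α : Γ →* (R →+* R)) (γ δ : Γ) (x : R) :
    α γ (α δ x) = α (γ * δ) x := by rw [map_mul]; rfl

lemma act_one {R : Type} [CommRing R] (α : Γ →* (R →+* R)) (x : R) : α 1 x = x := by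
  rw [map_one]; rfl

lemma act_inj {R : Type} [CommRing R] (α : Γ →* (R →+* R)) (γ : Γ) :
    Function.Injective (α γ) := fun x y h => by
  rw [← act_one α x, ← act_one α y, ← inv_mul_cancel γ, ← act_mul, ← act_mul, h]

/-- The automorphism given by one group element. -/
def actEquiv {R : Type} [CommRing R] (α : Γ →* (R →+* R)) (γ : Γ) : R ≃+* R :=
  RingEquiv.ofRingHom (α γ) (α γ⁻¹) (by ext x; simp [act_mul]) (by ext x; simp [act_mul])

lemma tw_map {R S : Type} [CommRing R] [CommRing S] {α : Γ →* (R →+* R)} {β : Γ →* (S →+* S)}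
    {ι : R →+* S} (h : ∀ γ c, β γ (ι c) = ι (α γ c)) (γ : Γ) (f : MvPolynomial Γ R) :
    tw β γ (map ι f) = map ι (tw α γ f) := by
  have : (tw β γ).comp (map ι) = (map ι).comp (tw α γ) :=
    ringHom_ext (fun c => by simp [h]) fun δ => by simp
  exact RingHom.congr_fun this f

lemma tw_deg {R : Type} [CommRing R] (α : Γ →* (R →+* R)) (γ : Γ) (f : MvPolynomial Γ R) :
    (tw α γ f).totalDegree ≤ f.totalDegree := by
  have : tw α γ = (rename (γ * ·) : MvPolynomial Γ R →ₐ[R] _).toRingHom.comp (map (α γ)) :=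
    ringHom_ext (fun c => by simp) fun δ => by simp
  rw [this]
  exact (totalDegree_rename_le _ _).trans (Finset.sup_mono (support_map_subset _ f))

/-- The action induced on the quotient by a stable ideal. -/
def quotAct {R : Type} [CommRing R] (α : Γ →* (R →+* R)) (I : Ideal R)
    (h : ∀ γ, ∀ x ∈ I, α γ x ∈ I) : Γ →* (R ⧸ I →+* R ⧸ I) where
  toFun γ := Ideal.quotientMap I (α γ) (h γ)
  map_one' := Ideal.Quotient.ringHom_ext (by ext x; simp)
  map_mul' γ δ := Ideal.Quotient.ringHom_ext (RingHom.ext fun x =>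
    congrArg (Ideal.Quotient.mk I) (act_mul α γ δ x).symm)

lemma quotAct_mk {R : Type} [CommRing R] (α : Γ →* (R →+* R)) (I : Ideal R)
    (h : ∀ γ, ∀ x ∈ I, α γ x ∈ I) (γ : Γ) (x : R) :
    quotAct α I h γ (Ideal.Quotient.mk I x) = Ideal.Quotient.mk I (α γ x) := rfl

theorem exists_fixed_max {K B : Type} [Field K] [CommRing B] [Algebra K B] {q : ℕ}
    [Fact q.Prime] (hΓ : IsPGroup q Γ) (β : Γ →* (K →+* K)) (τ : Γ →* (B →+* B))
    (h : ∀ γ c, τ γ (algebraMap K B c) = algebraMap K B (β γ c))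
    (hq : ¬ q ∣ Module.finrank K B) :
    ∃ m : Ideal B, m.IsMaximal ∧ ∀ γ, ∀ x ∈ m, τ γ x ∈ m := by
  classical
  have : Module.Finite K B :=
    Module.finite_of_finrank_pos (Nat.pos_of_ne_zero fun h0 => hq (h0 ▸ dvd_zero q))
  have : IsArtinianRing B := IsArtinianRing.of_finite K B
  have := Fintype.ofFinite (MaximalSpectrum B)
  obtain ⟨N, hN⟩ := IsArtinianRing.isNilpotent_nilradical (R := B)
  let w : MaximalSpectrum B → ℕ := fun m => Module.finrank K (B ⧸ m.asIdeal ^ N)
  have hsum : Module.finrank K B = ∑ m, w m := by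
    have e := ((AlgEquiv.quotientBot B B).symm.trans ((Ideal.quotientEquivAlgOfEq B hN.symm).trans
      (IsArtinianRing.quotNilradicalPowEquivPi B N))).toLinearEquiv.restrictScalars K
    rw [e.finrank_eq, Module.finrank_pi_fintype]
  let a : Γ → MaximalSpectrum B → MaximalSpectrum B := fun γ m =>
    ⟨m.asIdeal.comap (τ γ⁻¹), have := m.isMaximal
      Ideal.comap_isMaximal_of_surjective _ (actEquiv τ γ⁻¹).surjective⟩
  have hw : ∀ γ m, w (a γ m) = w m := fun γ m => by
    refine Algebra.finrank_eq_of_equiv_equiv (actEquiv β γ⁻¹)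
      (Ideal.quotientEquiv _ _ (actEquiv τ γ⁻¹) ?_) ?_
    · rw [Ideal.map_pow]
      congr 1
      exact (Ideal.map_comap_of_surjective (τ γ⁻¹) (actEquiv τ γ⁻¹).surjective _).symm
    · ext c
      exact congrArg (Ideal.Quotient.mk _) (h γ⁻¹ c).symm
  obtain ⟨v, hv⟩ : ∃ v, ¬ q ∣ Nat.card {m // w m = v} := by
    by_contra hc
    push Not at hc
    apply hq
    rw [hsum, ← Finset.sum_fiberwise_of_maps_to (t := Finset.univ.image w) (g := w)
      fun m hm => Finset.mem_image_of_mem _ hm]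
    refine Finset.dvd_sum fun v _ => ?_
    rw [Finset.sum_congr rfl fun m hm => (Finset.mem_filter.1 hm).2, Finset.sum_const, smul_eq_mul]
    have := hc v
    rw [Nat.card_eq_fintype_card, Fintype.card_subtype] at this
    exact this.mul_right _
  let : MulAction Γ {m // w m = v} :=
    { smul γ m := ⟨a γ m.1, (hw γ m.1).trans m.2⟩
      one_smul m := Subtype.ext (MaximalSpectrum.ext (Ideal.ext fun x => by
        change τ 1⁻¹ x ∈ m.1.asIdeal ↔ _
        rw [inv_one, act_one]))
      mul_smul γ δ m := Subtype.ext (MaximalSpectrum.ext (Ideal.ext fun x => by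
        change τ (γ * δ)⁻¹ x ∈ m.1.asIdeal ↔ τ δ⁻¹ (τ γ⁻¹ x) ∈ m.1.asIdeal
        rw [act_mul, mul_inv_rev])) }
  obtain ⟨m, hm⟩ := hΓ.nonempty_fixed_point_of_prime_not_dvd_card _ hv
  refine ⟨m.1.asIdeal, m.1.isMaximal, fun γ x hx => ?_⟩
  have e : m.1.asIdeal.comap (τ γ⁻¹⁻¹) = m.1.asIdeal := congrArg (fun z => z.1.asIdeal) (hm γ⁻¹)
  rw [← e, Ideal.mem_comap, inv_inv] at hx
  exact hx

end Pool.Agent.P.MP_e9ee98_al
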