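import Pool.Agent.P.MP_e9ee98_al.TwA
import Pool.Agent.P.MP_e9ee98_al.TwB
import Pool.Agent.P.MP_e9ee98_al.TwC

/-!
The conjugates of a polynomial with a monomial top part generate a proper ideal.
-/

namespace Pool.Agent.P.MP_e9ee98_al

open MvPolynomial

lemma norm_coef {E κ : Type} [Field E] [NormedField κ] {j : E →+* κ} (hj : ∀ c, ‖j c‖ ≤ 1) {c : E}
    (hc : c ≠ 0) : ‖j c‖ = 1 := by
  refine le_antisymm (hj c) ?_
  have h := hj c⁻¹
  rwa [map_inv₀, norm_inv, inv_le_one₀ (norm_pos_iff.2 ((map_ne_zero j).2 hc))] at h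

lemma eval_ne_zero {E K : Type} [Field E] [NormedField K] [IsUltrametricDist K] {ι : E →+* K}
    (hι : ∀ c, ‖ι c‖ ≤ 1) {u : K} (hu : 1 < ‖u‖) (r : Polynomial E)
    (hr : r - 1 ∈ Ideal.span {(Polynomial.X : Polynomial E)}) :
    Polynomial.eval₂RingHom ι u r ≠ 0 := by
  rcases lt_or_ge 0 r.degree with h | h
  · have : 1 < ‖Polynomial.eval₂RingHom ι u r‖ := by
      refine Polynomial.degree_pos_induction_on
        (P := fun r => 1 < ‖Polynomial.eval₂RingHom ι u r‖) r h ?_ ?_ ?_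
      · intro a ha
        simpa [norm_coef hι ha] using hu
      · intro p _ hp
        simpa using one_lt_mul_of_lt_of_le (by simpa using hp) hu.le
      · intro p a _ hp
        have h1 : ‖Polynomial.eval₂RingHom ι u (Polynomial.C a)‖ ≤ 1 := by simpa using hι a
        rw [map_add, IsUltrametricDist.norm_add_eq_max_of_norm_ne_norm (h1.trans_lt hp).ne']
        exact lt_max_of_lt_left hp
    intro h0
    rw [h0, norm_zero] at this
    exact absurd this (by norm_num)
  · rw [Ideal.mem_span_singleton, Polynomial.X_dvd_iff, Polynomial.coeff_sub,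
      Polynomial.coeff_one_zero, sub_eq_zero] at hr
    rw [Polynomial.eq_C_of_degree_le_zero h, hr]
    simp

section
variable {E κ σ : Type} [Field E] [NormedField κ] [IsUltrametricDist κ]

omit [IsUltrametricDist κ] in
lemma norm_monomial (ψ : MvPolynomial σ E →+* κ) {a : ℝ} (ha : ∀ i, ‖ψ (X i)‖ = a)
    (e : σ →₀ ℕ) (c : E) : ‖ψ (monomial e c)‖ = ‖ψ (C c)‖ * a ^ e.sum fun _ n => n := by
  rw [monomial_eq, map_mul, norm_mul, Finsupp.prod, map_prod, norm_prod, Finsupp.sum,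
    ← Finset.prod_pow_eq_pow_sum]
  simp [ha]

lemma norm_poly_le (ψ : MvPolynomial σ E →+* κ) (hc : ∀ c, ‖ψ (C c)‖ ≤ 1) {a b : ℝ}
    (ha : ∀ i, ‖ψ (X i)‖ = a) (ha0 : 0 ≤ a) (hab : a ≤ b) (hb : 1 ≤ b) (f : MvPolynomial σ E) :
    ‖ψ f‖ ≤ b ^ f.totalDegree := by
  conv_lhs => rw [f.as_sum, map_sum]
  refine IsUltrametricDist.norm_sum_le_of_forall_le_of_nonneg (by positivity) fun e he => ?_
  rw [norm_monomial ψ ha]
  refine (mul_le_of_le_one_left (by positivity) (hc _)).trans ?_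
  exact (pow_le_pow_left₀ ha0 hab _).trans (pow_le_pow_right₀ hb (le_totalDegree he))

lemma span_ne_top_of_point [Fintype σ] (ψ : MvPolynomial σ E →+* κ) (hc : ∀ c, ‖ψ (C c)‖ ≤ 1)
    {a : ℝ} (ha : ∀ i, ‖ψ (X i)‖ = a) {d : ℕ} {t : ℝ} (ht0 : 0 ≤ t) (ht : t < 1)
    (F : σ → MvPolynomial σ E) (hF : ∀ i, ‖ψ (F i)‖ = t * a ^ d) (i : σ) {e : σ →₀ ℕ} {c : E}
    (hc0 : c ≠ 0) (he : (e.sum fun _ n => n) = d) (hd : (F i - monomial e c).totalDegree < d) :
    Ideal.span (Set.range F) ≠ ⊤ := by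
  have ha0 : 0 ≤ a := ha i ▸ norm_nonneg _
  rcases le_or_gt a 1 with h | h
  · rw [Ne, Ideal.eq_top_iff_one, Ideal.mem_span_range_iff_exists_fun]
    rintro ⟨g, hg⟩
    have : ‖ψ 1‖ ≤ t := by
      rw [← hg, map_sum]
      refine IsUltrametricDist.norm_sum_le_of_forall_le_of_nonneg ht0 fun j _ => ?_
      rw [map_mul, norm_mul, hF]
      have h1 := norm_poly_le ψ hc ha ha0 h le_rfl (g j)
      rw [one_pow] at h1
      exact (mul_le_of_le_one_left (by positivity) h1).trans
        (mul_le_of_le_one_right ht0 (pow_le_one₀ ha0 h))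
    rw [map_one, norm_one] at this
    exact absurd ht this.not_gt
  · exfalso
    have h1 : ‖ψ (monomial e c)‖ = a ^ d := by
      rw [norm_monomial ψ ha, he]
      exact (congrArg (· * a ^ d) (norm_coef (j := ψ.comp C) hc hc0)).trans (one_mul _)
    have h2 : ‖ψ (F i - monomial e c)‖ < a ^ d :=
      (norm_poly_le ψ hc ha ha0 le_rfl h.le _).trans_lt (pow_lt_pow_right₀ h hd)
    have h3 : ‖ψ (F i)‖ < a ^ d := by
      rw [hF]; exact mul_lt_of_lt_one_left (by positivity) ht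
    have h4 := IsUltrametricDist.norm_add_le_max (ψ (F i)) (-ψ (F i - monomial e c))
    rw [← map_neg, ← map_add, neg_sub, add_sub_cancel, h1, map_sub, ← neg_sub, norm_neg,
      ← map_sub] at h4
    exact absurd h4 (max_lt h3 h2).not_ge

end

theorem key_lemma {E Γ : Type} [Field E] [Group Γ] [Finite Γ] {q : ℕ} [Fact q.Prime]
    (hΓ : IsPGroup q Γ) (α : Γ →* (E →+* E)) {d : ℕ} (hd : ¬ q ∣ d) (F : MvPolynomial Γ E)
    {e : Γ →₀ ℕ} {c : E} (hc : c ≠ 0) (he : (e.sum fun _ n => n) = d)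
    (hF : (F - monomial e c).totalDegree < d) :
    Ideal.span (Set.range fun γ => tw α γ F) ≠ ⊤ := by
  have := Fintype.ofFinite Γ
  obtain ⟨K, _, _, _, ι, β, t, ht0, ht, hι, hβt, hβι, hβ⟩ := exists_complete E α
  have hd0 : 0 < d := Nat.pos_of_ne_zero fun h => hd (h ▸ dvd_zero q)
  have hFd : F.totalDegree ≤ d := by
    rw [← sub_add_cancel F (monomial e c)]
    exact (totalDegree_add _ _).trans (max_le hF.le ((totalDegree_monomial_le _ _).trans he.le))
  let φ := Polynomial.eval₂RingHom ι t⁻¹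
  have hb := th_bijective (d := d) φ Polynomial.X
    (eval_ne_zero hι (by rw [norm_inv]; exact (one_lt_inv₀ (norm_pos_iff.2 ht0)).2 ht))
    (G := fun γ => map Polynomial.C (tw α γ F))
    fun γ => (Finset.sup_mono (support_map_subset _ _)).trans ((tw_deg α γ F).trans hFd)
  let g : Γ → MvPolynomial Γ K := fun γ => X γ ^ d + C t⁻¹ * map ι (tw α γ F)
  have hg : (fun γ => map φ (X γ ^ d + C Polynomial.X * map Polynomial.C (tw α γ F))) = g := by
    funext γ
    have : φ.comp Polynomial.C = ι := by ext c; simp [φ]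
    simp only [map_add, map_pow, map_mul, map_X, map_C, map_map, this, g]
    simp [φ]
  rw [hg] at hb
  let I := Ideal.span (Set.range g)
  have hI : ∀ γ, ∀ x ∈ I, tw β γ x ∈ I := fun γ => by
    change I ≤ I.comap (tw β γ)
    refine Ideal.span_le.2 ?_
    rintro _ ⟨δ, rfl⟩
    refine Ideal.subset_span ⟨γ * δ, ?_⟩
    simp [g, tw_map hβι, hβt]
  obtain ⟨m, hm, hm'⟩ := exists_fixed_max hΓ β (quotAct (tw β) I hI)
    (fun γ c => congrArg (Ideal.Quotient.mk I) (tw_C β γ c)) (by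
      rw [finrank_of_bijective hd0 hb]
      exact fun h => hd ((Fact.out : q.Prime).dvd_of_dvd_pow h))
  have : Module.Finite K (MvPolynomial Γ K ⧸ I) := Module.finite_of_finrank_pos (by
    rw [finrank_of_bijective hd0 hb]; positivity)
  let κ := (MvPolynomial Γ K ⧸ I) ⧸ m
  let : Field κ := Ideal.Quotient.field m
  let : NormedField κ := spectralNorm.normedField K κ
  have : IsUltrametricDist κ :=
    IsUltrametricDist.isUltrametricDist_of_isNonarchimedean_norm isNonarchimedean_spectralNorm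
  have hK : ∀ c : K, ‖algebraMap K κ c‖ = ‖c‖ := spectralNorm_extends
  let s := quotAct (quotAct (tw β) I hI) m hm'
  let χ : MvPolynomial Γ K →+* κ := (Ideal.Quotient.mk m).comp (Ideal.Quotient.mk I)
  have hχ : ∀ γ x, s γ (χ x) = χ (tw β γ x) := fun _ _ => rfl
  have hC : ∀ c, χ (C c) = algebraMap K κ c := fun _ => rfl
  have hs : ∀ γ x, ‖s γ x‖ = ‖x‖ := fun γ x =>
    spectralNorm_unique_field_norm_ext (K := K)
      (f := (NormedField.toAbsoluteValue κ).comp (act_inj s γ)) (fun c => by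
        change ‖s γ (χ (C c))‖ = _
        rw [hχ, tw_C, hC, hK, hβ]) x
  have ha : ∀ γ, ‖χ (X γ)‖ = ‖χ (X 1)‖ := fun γ => by rw [← hs γ (χ (X 1)), hχ, tw_X, mul_one]
  refine span_ne_top_of_point (χ.comp (map ι)) (fun c => ?_) (a := ‖χ (X 1)‖)
    (fun γ => by simpa using ha γ) (norm_nonneg t) ht _ (fun γ => ?_) 1 hc he
    (by rwa [act_one])
  · rw [RingHom.comp_apply, map_C, hC, hK]; exact hι c
  · have h0 : χ (g γ) = 0 := by
      change Ideal.Quotient.mk m (Ideal.Quotient.mk I (g γ)) = 0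
      rw [Ideal.Quotient.eq_zero_iff_mem.2 (Ideal.subset_span (Set.mem_range_self γ)), map_zero]
    simp only [g, map_add, map_mul, map_pow, hC] at h0
    have h1 := congrArg norm (eq_neg_of_add_eq_zero_right h0)
    rw [norm_neg, norm_mul, hK, norm_pow, ha, norm_inv] at h1
    rw [RingHom.comp_apply, ← h1, mul_inv_cancel_left₀ (norm_ne_zero_iff.2 ht0)]

end Pool.Agent.P.MP_e9ee98_al
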