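import Pool.Agent.P.MP_e9ee98_al.TwD

/-!
A common zero of the conjugates of a polynomial with a monomial top part.
-/

namespace Pool.Agent.P.MP_e9ee98_al

open MvPolynomial

lemma deg_map {R S σ : Type} [CommRing R] [CommRing S] (φ : R →+* S) (f : MvPolynomial σ R) :
    (map φ f).totalDegree ≤ f.totalDegree := Finset.sup_mono (support_map_subset φ f)

theorem exists_point {k D Γ : Type} [Field k] [IsAlgClosed k] [CommRing D] [IsDomain D]
    [Algebra k D] [Algebra.FiniteType k D] [Group Γ] [Finite Γ] {q : ℕ} [Fact q.Prime]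
    (hΓ : IsPGroup q Γ) (α : Γ →* (D →+* D)) {d : ℕ} (hd : ¬ q ∣ d) (F : MvPolynomial Γ D)
    {e : Γ →₀ ℕ} {c : D} (hc : c ≠ 0) (he : (e.sum fun _ n => n) = d)
    (hF : (F - monomial e c).totalDegree < d) :
    ∃ ev : MvPolynomial Γ D →ₐ[k] k, (∀ γ, ev (tw α γ F) = 0) ∧ ∀ γ, ev (C (α γ c)) ≠ 0 := by
  classical
  have := Fintype.ofFinite Γ
  let E := FractionRing D
  let j := algebraMap D E
  have hj : Function.Injective j := IsFractionRing.injective D E
  have hi : ∀ γ, Function.Injective (j.comp (α γ)) := fun γ => hj.comp (act_inj α γ)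
  let β : Γ →* (E →+* E) :=
    { toFun γ := IsFractionRing.lift (hi γ)
      map_one' := IsFractionRing.ringHom_ext (A := D) fun x => by
        rw [IsFractionRing.lift_algebraMap, RingHom.comp_apply, act_one]; rfl
      map_mul' γ δ := IsFractionRing.ringHom_ext (A := D) fun x => by
        rw [IsFractionRing.lift_algebraMap, RingHom.mul_def, RingHom.comp_apply,
          RingHom.comp_apply, IsFractionRing.lift_algebraMap, RingHom.comp_apply,
          IsFractionRing.lift_algebraMap, RingHom.comp_apply, act_mul] }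
  have hβ : ∀ γ x, β γ (j x) = j (α γ x) := fun γ x => IsFractionRing.lift_algebraMap (hi γ) x
  have hk := key_lemma hΓ β hd (map j F) (e := e) (c := j c) ((map_ne_zero_iff j hj).2 hc) he
    (by rw [← map_monomial, ← map_sub]; exact (deg_map _ _).trans_lt hF)
  let I := Ideal.span (Set.range fun γ => tw α γ F)
  have hP : (C (∏ γ, α γ c) : MvPolynomial Γ D) ∉ I.radical := by
    rintro ⟨n, hn⟩
    have h1 := Ideal.mem_map_of_mem (map j) hn
    rw [Ideal.map_span, ← Set.range_comp] at h1
    refine hk (Ideal.eq_top_of_isUnit_mem _ (by simpa only [tw_map hβ, Function.comp_def] using h1) ?_)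
    rw [map_pow, map_C]
    refine (IsUnit.map C (Ne.isUnit ((map_ne_zero_iff j hj).2 ?_))).pow n
    exact Finset.prod_ne_zero_iff.2 fun γ _ => (map_ne_zero_iff _ (act_inj α γ)).2 hc
  have : IsJacobsonRing (MvPolynomial Γ D) := isJacobsonRing_of_finiteType (A := k)
  rw [Ideal.radical_eq_jacobson, Ideal.jacobson, Ideal.mem_sInf] at hP
  push Not at hP
  obtain ⟨m, ⟨hIm, hm⟩, hP⟩ := hP
  let : Field (MvPolynomial Γ D ⧸ m) := Ideal.Quotient.field m
  have := finite_of_finite_type_of_isJacobsonRing k (MvPolynomial Γ D ⧸ m)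
  let l : (MvPolynomial Γ D ⧸ m) →ₐ[k] k := IsAlgClosed.lift
  have h0 : ∀ x, l.comp (Ideal.Quotient.mkₐ k m) x = 0 ↔ x ∈ m := fun x => by
    rw [AlgHom.comp_apply, map_eq_zero_iff l l.injective]
    exact Ideal.Quotient.eq_zero_iff_mem
  refine ⟨l.comp (Ideal.Quotient.mkₐ k m),
    fun γ => (h0 _).2 (hIm (Ideal.subset_span ⟨γ, rfl⟩)), fun γ h => hP ?_⟩
  rw [← Finset.mul_prod_erase _ _ (Finset.mem_univ γ), map_mul]
  exact m.mul_mem_right _ ((h0 _).1 h)

end Pool.Agent.P.MP_e9ee98_al
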