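import Pool.Agent.P.MP_e9ee98_al.TwE
import Pool.Agent.P.MP_e9ee98_al.Shape

/-!
Degree pattern of the matrices of cyclically reduced words, in several variables.
-/

namespace Pool.Agent.P.MP_e9ee98_al

open MvPolynomial Matrix
open scoped MatrixGroups

variable {D σ : Type} [CommRing D]

/-- First column of total degree below `r`, second column of total degree at most `r`, lower right
entry a monomial of degree `r` plus terms of lower degree. -/
def MS (r : ℕ) (e : σ →₀ ℕ) (c : D) (N : Matrix (Fin 2) (Fin 2) (MvPolynomial σ D)) : Prop :=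
  (e.sum fun _ n => n) = r ∧ (N 0 0).totalDegree < r ∧ (N 1 0).totalDegree < r ∧
    (N 0 1).totalDegree ≤ r ∧ (N 1 1 - monomial e c).totalDegree < r

lemma td_lt_le {a b : MvPolynomial σ D} {r s : ℕ} (ha : a.totalDegree < r)
    (hb : b.totalDegree ≤ s) : (a * b).totalDegree < r + s :=
  (totalDegree_mul a b).trans_lt (by omega)

lemma td_le_lt {a b : MvPolynomial σ D} {r s : ℕ} (ha : a.totalDegree ≤ r)
    (hb : b.totalDegree < s) : (a * b).totalDegree < r + s :=
  (totalDegree_mul a b).trans_lt (by omega)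

lemma td_add {a b : MvPolynomial σ D} {r : ℕ} (ha : a.totalDegree < r)
    (hb : b.totalDegree < r) : (a + b).totalDegree < r :=
  (totalDegree_add a b).trans_lt (max_lt ha hb)

lemma td_add_le {a b : MvPolynomial σ D} {r : ℕ} (ha : a.totalDegree ≤ r)
    (hb : b.totalDegree ≤ r) : (a + b).totalDegree ≤ r :=
  (totalDegree_add a b).trans (max_le ha hb)

variable {r s : ℕ} {e e' : σ →₀ ℕ} {c c' : D} {N N' : Matrix (Fin 2) (Fin 2) (MvPolynomial σ D)}

lemma MS.mono (h : MS r e c N) : (monomial e c).totalDegree ≤ r :=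
  (totalDegree_monomial_le _ _).trans h.1.le

lemma MS.le (h : MS r e c N) : (N 1 1).totalDegree ≤ r := by
  rw [← sub_add_cancel (N 1 1) (monomial e c)]
  exact td_add_le h.2.2.2.2.le h.mono

lemma MS.sum (h : MS r e c N) (h' : MS s e' c' N') : ((e + e').sum fun _ n => n) = r + s := by
  rw [Finsupp.sum_add_index' (fun _ => rfl) fun _ _ _ => rfl, h.1, h'.1]

lemma MS.mul (h : MS r e c N) (h' : MS s e' c' N') : MS (r + s) (e + e') (c * c') (N * N') := by
  have ⟨_, a0, a1, a2, a3⟩ := h
  have ⟨_, b0, b1, b2, b3⟩ := h'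
  simp only [MS, Matrix.mul_apply, Fin.sum_univ_two]
  refine ⟨h.sum h', td_add (td_lt_le a0 b0.le) (td_le_lt a2 b1),
    td_add (td_lt_le a1 b0.le) (td_le_lt h.le b1),
    td_add_le (td_lt_le a0 b2).le ((totalDegree_mul _ _).trans (add_le_add a2 h'.le)), ?_⟩
  have : N 1 0 * N' 0 1 + N 1 1 * N' 1 1 - monomial (e + e') (c * c') =
      N 1 0 * N' 0 1 + ((N 1 1 - monomial e c) * N' 1 1 +
        monomial e c * (N' 1 1 - monomial e' c')) := by
    rw [← monomial_mul]; ring
  rw [this]
  exact td_add (td_lt_le a1 b2) (td_add (td_lt_le a3 h'.le) (td_le_lt h.mono b3))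

lemma MS.trace (h : MS r e c N) (hd : N.det.totalDegree = 0) (w w' : D) :
    (C w * (N 0 0 + N 1 1) ^ 2 - C w' * N.det - monomial (e + e) (w * (c * c))).totalDegree
      < r + r := by
  have ⟨_, a0, _, _, a3⟩ := h
  have : C w * (N 0 0 + N 1 1) ^ 2 - C w' * N.det - monomial (e + e) (w * (c * c)) =
      C w * ((N 0 0 + (N 1 1 - monomial e c)) * (N 0 0 + (N 1 1 + monomial e c))) +
        C (-w') * N.det := by
    rw [← C_mul_monomial, ← monomial_mul, map_neg]; ring
  rw [this]
  refine td_add ((totalDegree_mul _ _).trans_lt ?_) ((totalDegree_mul _ _).trans_lt ?_)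
  · rw [totalDegree_C, zero_add]
    exact td_lt_le (td_add a0 a3) (td_add_le a0.le (td_add_le h.le h.mono))
  · rw [totalDegree_C, hd]; omega

lemma MS.shape {k : Type} [Field k] (θ : MvPolynomial σ D →+* Polynomial k) (φ : D →+* k)
    (x : σ → k) (hC : ∀ c, θ (C c) = Polynomial.C (φ c))
    (hX : ∀ i, θ (X i) = Polynomial.X + Polynomial.C (x i)) (h : MS r e c N) (hc : φ c ≠ 0) :
    Shape r (θ.mapMatrix N) := by
  have hθ : θ = (aeval fun i => Polynomial.X + Polynomial.C (x i) :
      MvPolynomial σ k →ₐ[k] Polynomial k).toRingHom.comp (map φ) :=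
    ringHom_ext (fun c => by simp [hC]) fun i => by simp [hX]
  have hle : ∀ f, (θ f).degree ≤ f.totalDegree := fun f => by
    refine Polynomial.degree_le_of_natDegree_le ?_
    rw [hθ]
    exact (aeval_natDegree_le _ (deg_map φ f) _ fun i => (Polynomial.natDegree_X_add_C _).le).trans
      (mul_one _).le
  have hlt : ∀ f : MvPolynomial σ D, f.totalDegree < r → (θ f).degree < r := fun f hf =>
    (hle f).trans_lt (by exact_mod_cast hf)
  have hm : (θ (monomial e c)).degree = r := by
    rw [monomial_eq, map_mul, hC, Polynomial.degree_mul, Polynomial.degree_C hc, zero_add,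
      Finsupp.prod, map_prod, Polynomial.degree_prod, ← h.1, Finsupp.sum, Nat.cast_sum]
    simp [hX]
  refine ⟨hlt _ h.2.1, hlt _ h.2.2.1, (hle _).trans (by exact_mod_cast h.2.2.2.1), ?_⟩
  change (θ (N 1 1)).degree = r
  rw [← sub_add_cancel (N 1 1) (monomial e c), map_add,
    Polynomial.degree_add_eq_right_of_degree_lt (hm ▸ hlt _ h.2.2.2.2), hm]

/-- Upper unipotent matrix with entry `c * X i`. -/
noncomputable def UV (c : D) (i : σ) : GL (Fin 2) (MvPolynomial σ D) :=
  GeneralLinearGroup.upperRightHom (C c * X i)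

lemma UV_sub (c d : D) (i : σ) : (UV c i)⁻¹ * UV d i = UV (d - c) i := by
  rw [inv_mul_eq_iff_eq_mul]
  simp only [UV, ← AddChar.map_add_eq_mul, ← add_mul, ← map_add, add_sub_cancel]

lemma ms_one (B : GL (Fin 2) D) (c : D) (i : σ) :
    MS 1 (Finsupp.single i 1) (B 1 0 * c) (GeneralLinearGroup.map C B * UV c i).val := by
  have e : ∀ a b, (GeneralLinearGroup.map C B * UV c i).val a b =
      C (B a 0) * (!![1, C c * X i; 0, 1] : Matrix (Fin 2) (Fin 2) (MvPolynomial σ D)) 0 b +
      C (B a 1) * (!![1, C c * X i; 0, 1] : Matrix (Fin 2) (Fin 2) (MvPolynomial σ D)) 1 b := by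
    intro a b
    rw [Units.val_mul, Matrix.mul_apply, Fin.sum_univ_two]
    rfl
  have h1 : ∀ a b : D, (C a * (C c * X i) + C b * 1 : MvPolynomial σ D) =
      monomial (Finsupp.single i 1) (a * c) + C b := fun a b => by
    rw [← mul_assoc, ← map_mul, C_mul_X_eq_monomial, mul_one]
  refine ⟨by simp, ?_, ?_, ?_, ?_⟩
  · rw [e]; simp
  · rw [e]; simp
  · rw [e]
    simp only [of_apply, cons_val', cons_val_one, cons_val_fin_one, cons_val_zero]
    rw [h1]
    exact td_add_le ((totalDegree_monomial_le _ _).trans (by simp)) (by simp)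
  · rw [e]
    simp only [of_apply, cons_val', cons_val_one, cons_val_fin_one, cons_val_zero]
    rw [h1]; simp

variable {Γ Λ : Type} [Group Γ]

/-- The matrix of a word in the twisted setting. -/
noncomputable def tm (lam : Λ → D) (B : Γ → Λ → GL (Fin 2) D) (π : Λ → Γ) :
    Γ → List Λ → GL (Fin 2) (MvPolynomial Γ D)
  | _, [] => 1
  | γ, m :: L => UV (lam m) γ * GeneralLinearGroup.map C (B γ m) * (UV (lam m) (γ * π m))⁻¹ *
      tm lam B π (γ * π m) L

lemma tm_shape [IsDomain D] (lam : Λ → D) (B : Γ → Λ → GL (Fin 2) D) (π : Λ → Γ) :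
    ∀ (L : List Λ) (l z : Λ) (γ : Γ), (∀ m ∈ l :: L, ∀ γ, B γ m 1 0 ≠ 0) →
    List.IsChain (fun a b => lam a ≠ lam b) (l :: L ++ [z]) →
    ∃ e c, c ≠ 0 ∧ MS (L.length + 1) e c ((UV (lam l) γ)⁻¹ * tm lam B π γ (l :: L) *
      UV (lam z) (γ * ((l :: L).map π).prod)).val := by
  intro L
  induction L with
  | nil =>
    intro l z γ h1 h2
    have h3 : lam l ≠ lam z := by simpa using h2
    have : (UV (lam l) γ)⁻¹ * tm lam B π γ [l] * UV (lam z) (γ * ([l].map π).prod) =
        GeneralLinearGroup.map C (B γ l) * UV (lam z - lam l) (γ * π l) := by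
      simp [tm, ← UV_sub, mul_assoc]
    rw [this]
    exact ⟨_, _, mul_ne_zero (h1 l (by simp) γ) (sub_ne_zero.2 h3.symm), ms_one _ _ _⟩
  | cons m L ih =>
    intro l z γ h1 h2
    have h3 : lam l ≠ lam m ∧ List.IsChain (fun a b => lam a ≠ lam b) (m :: L ++ [z]) := by
      simpa using h2
    have : (UV (lam l) γ)⁻¹ * tm lam B π γ (l :: m :: L) *
        UV (lam z) (γ * ((l :: m :: L).map π).prod) =
        (GeneralLinearGroup.map C (B γ l) * UV (lam m - lam l) (γ * π l)) *
          ((UV (lam m) (γ * π l))⁻¹ * tm lam B π (γ * π l) (m :: L) *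
            UV (lam z) (γ * π l * ((m :: L).map π).prod)) := by
      rw [tm]
      simp [← UV_sub, mul_assoc]
    obtain ⟨e, c, hc, h⟩ := ih m z (γ * π l) (fun x hx => h1 x (List.mem_cons_of_mem _ hx)) h3.2
    rw [this, Units.val_mul, List.length_cons, add_comm _ 1]
    exact ⟨_, _, mul_ne_zero (mul_ne_zero (h1 l (by simp) γ) (sub_ne_zero.2 h3.1.symm)) hc,
      (ms_one _ _ _).mul h⟩

end Pool.Agent.P.MP_e9ee98_al
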