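import Pool.Agent.P.MP_e9ee98_al.Orders

/-!
The common order of a family of polynomial matrices modulo powers of `X`.
-/

namespace Pool.Agent.P.MP_e9ee98_al

open Polynomial Matrix
open scoped MatrixGroups

variable {k : Type} [Field k]

lemma order_base [IsAlgClosed k] (N : GL (Fin 2) k[X]) {ω : k} (hω0 : ω ≠ 0)
    (ht : ω * (N.val 0 0 + N.val 1 1).eval 0 ^ 2 = (1 + ω) ^ 2 * N.val.det.eval 0) (j : ℕ) :
    (∑ i ∈ Finset.range j, ω ^ i = 0 → Sc X (N.val ^ j)) ∧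
      (ω ≠ 1 → Sc X (N.val ^ j) → ∑ i ∈ Finset.range j, ω ^ i = 0) := by
  have hd0 : N.val.det.eval 0 ≠ 0 :=
    ((N.isUnit.map (Matrix.detMonoidHom (n := Fin 2) (R := k[X]))).map (evalRingHom 0)).ne_zero
  set M : Matrix (Fin 2) (Fin 2) k := (evalRingHom 0).mapMatrix N.val with hM
  have hMe : ∀ j a b, (M ^ j) a b = ((N.val ^ j) a b).eval 0 := fun j a b => by
    rw [hM, ← map_pow]; rfl
  have e1 : (N.val 0 0 + N.val 1 1).eval 0 = M 0 0 + M 1 1 := eval_add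
  have e2 : N.val.det.eval 0 = M 0 0 * M 1 1 - M 0 1 * M 1 0 := by
    rw [Matrix.det_fin_two, eval_sub, eval_mul, eval_mul]; rfl
  rw [e1, e2] at ht
  rw [e2] at hd0
  obtain ⟨μ, htr, hdet⟩ : ∃ μ : k, M 0 0 + M 1 1 = μ * (1 + ω) ∧
      M 0 0 * M 1 1 - M 0 1 * M 1 0 = μ ^ 2 * ω := by
    obtain ⟨μ, hμ⟩ := IsAlgClosed.exists_pow_nat_eq ((M 0 0 * M 1 1 - M 0 1 * M 1 0) / ω) two_pos
    have h1 : M 0 0 * M 1 1 - M 0 1 * M 1 0 = μ ^ 2 * ω := by rw [hμ, div_mul_cancel₀ _ hω0]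
    have h2 : (M 0 0 + M 1 1) ^ 2 = (μ * (1 + ω)) ^ 2 :=
      mul_left_cancel₀ hω0 (by rw [ht, h1]; ring)
    rcases sq_eq_sq_iff_eq_or_eq_neg.1 h2 with h | h
    · exact ⟨μ, h, h1⟩
    · exact ⟨-μ, by rw [h]; ring, by rw [h1]; ring⟩
  have hμ0 : μ ≠ 0 := by
    rintro rfl
    exact hd0 (by rw [hdet]; ring)
  have h0 : Sc X (N.val ^ j) ↔
      (∑ i ∈ Finset.range j, ω ^ i = 0 ∨ (M 0 1 = 0 ∧ M 1 0 = 0 ∧ M 0 0 - M 1 1 = 0)) := by
    rw [← scalar_pow_iff hμ0 htr hdet, Sc]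
    simp only [X_dvd_iff, coeff_zero_eq_eval_zero, hMe, eval_sub]
  refine ⟨fun h => h0.2 (Or.inl h), fun hω1 h => (h0.1 h).resolve_right ?_⟩
  rintro ⟨h1, -, h3⟩
  rw [h1] at hdet
  have : (μ * (ω - 1)) ^ 2 = 0 := by
    linear_combination (-(M 0 0 + M 1 1 + μ * (1 + ω))) * htr + 4 * hdet +
      (M 0 0 - M 1 1) * h3
  exact mul_ne_zero hμ0 (sub_ne_zero.mpr hω1) (pow_eq_zero_iff two_ne_zero |>.mp this)

theorem exists_order_fam {p : ℕ} [Fact p.Prime] [CharP k p] [IsAlgClosed k] {r : ℕ} {Γ : Type}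
    (x₀ : Γ) (N : Γ → GL (Fin 2) k[X]) (hN : Shape r (N x₀).val) {a n' : ℕ}
    (hn : 2 ≤ p ^ a * n') {ω : k} (hω : IsPrimitiveRoot ω n')
    (ht : ∀ x, ω * ((N x).val 0 0 + (N x).val 1 1).eval 0 ^ 2 =
      (1 + ω) ^ 2 * (N x).val.det.eval 0)
    (o : ℕ → ℕ) (ho : ∀ K j, o K ∣ j ↔ ∀ x, Sc (X ^ (K + 1)) ((N x).val ^ j)) :
    ∃ K, o K = p ^ a * n' := by
  have hp : p.Prime := Fact.out
  have hn0 : n' ≠ 0 := by rintro rfl; simp at hn
  have hb := fun x => order_base (N x) (hω.ne_zero hn0) (ht x)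
  have h0 : ∀ j, o 0 ∣ j ↔ ∀ x, Sc X ((N x).val ^ j) := fun j => by simpa using ho 0 j
  obtain ⟨e, he⟩ : ∃ e, p ^ a * n' = o 0 * p ^ e := by
    by_cases h1 : n' = 1
    · subst h1
      have : ω = 1 := by simpa using hω.pow_eq_one
      have h2 : o 0 ∣ p := (h0 p).mpr fun x => (hb x p).1 (by simp [this])
      rcases hp.eq_one_or_self_of_dvd _ h2 with h | h
      · exact ⟨a, by simp [h]⟩
      · rcases a with _ | a
        · simp at hn
        · exact ⟨a, by rw [h]; ring⟩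
    · have hω1 : ω ≠ 1 := hω.ne_one (by omega)
      have h2 : ∀ j, o 0 ∣ j ↔ n' ∣ j := by
        intro j
        rw [h0, ← hω.pow_eq_one_iff_dvd, ← sub_eq_zero (a := ω ^ j), ← geom_sum_mul,
          mul_eq_zero, or_iff_left (sub_ne_zero.mpr hω1)]
        exact ⟨fun h => (hb x₀ j).2 hω1 (h x₀), fun h x => (hb x j).1 h⟩
      exact ⟨a, by rw [Nat.dvd_antisymm ((h2 _).mpr dvd_rfl) ((h2 _).mp dvd_rfl), mul_comm]⟩
  refine seq_hit hp o (n := p ^ a * n') (e := e) (fun K => ?_) (fun K => ?_) (by omega) he ?_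
  · refine (ho _ _).2 fun x => ?_
    have h := (ho (K + 1) _).1 dvd_rfl x
    have hd : (X : k[X]) ^ (K + 1) ∣ X ^ (K + 1 + 1) := pow_dvd_pow _ (by omega)
    exact ⟨hd.trans h.1, hd.trans h.2.1, hd.trans h.2.2⟩
  · refine (ho _ _).2 fun x => ?_
    rw [mul_comm, pow_mul]
    exact ((ho K _).1 dvd_rfl x).step
  · obtain ⟨m, hm⟩ : ∃ m, p ^ a * n' = m + 1 := ⟨p ^ a * n' - 1, by omega⟩
    rw [hm]
    refine ⟨(m + 1) * r, fun h => ?_⟩
    have h1 := ((ho _ _).1 h x₀).2.2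
    have hs := hN.pow m
    have h2 : (((N x₀).val ^ (m + 1)) 0 0 - ((N x₀).val ^ (m + 1)) 1 1).degree =
        ((m + 1) * r : ℕ) := by
      rw [degree_sub_eq_right_of_degree_lt, hs.2.2.2]
      rw [hs.2.2.2]; exact hs.1
    have h3 := degree_le_of_dvd h1 (by
      intro h0; rw [h0, degree_zero] at h2; exact WithBot.bot_ne_coe h2)
    rw [h2, degree_pow, degree_X, nsmul_one] at h3
    have : (m + 1) * r + 1 ≤ (m + 1) * r := by exact_mod_cast h3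
    omega

end Pool.Agent.P.MP_e9ee98_al
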