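import Pool.Agent.P.MP_e9ee98_al.TwF
import Pool.Agent.P.MP_e9ee98_al.TwG

/-!
Semidirect products of projective linear groups with groups acting on the base ring.
-/

namespace Pool.Agent.P.MP_e9ee98_al

open Matrix
open scoped MatrixGroups

variable {Γ Γ' R S : Type} [Group Γ] [Group Γ'] [CommRing R] [CommRing S]

lemma pmap_act (α : Γ →* (R →+* R)) (γ δ : Γ) (y : PGL(2, R)) :
    ProjGenLinGroup.map (α γ) (ProjGenLinGroup.map (α δ) y) = ProjGenLinGroup.map (α (γ * δ)) y := by
  rw [map_mul, RingHom.mul_def, ProjGenLinGroup.map_comp]; rfl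

lemma pmap_one (α : Γ →* (R →+* R)) (y : PGL(2, R)) : ProjGenLinGroup.map (α 1) y = y := by
  rw [map_one, RingHom.one_def, ProjGenLinGroup.map_id]; rfl

/-- The action on `PGL₂` induced by an action on the ring. -/
noncomputable def pact (α : Γ →* (R →+* R)) : Γ →* MulAut PGL(2, R) where
  toFun γ := MonoidHom.toMulEquiv (ProjGenLinGroup.map (α γ)) (ProjGenLinGroup.map (α γ⁻¹))
    (MonoidHom.ext fun y => by rw [MonoidHom.comp_apply, pmap_act, inv_mul_cancel, pmap_one]; rfl)
    (MonoidHom.ext fun y => by rw [MonoidHom.comp_apply, pmap_act, mul_inv_cancel, pmap_one]; rfl)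
  map_one' := MulEquiv.ext (pmap_one α)
  map_mul' γ δ := MulEquiv.ext fun y => (pmap_act α γ δ y).symm

lemma pact_mk (α : Γ →* (R →+* R)) (γ : Γ) (g : GL (Fin 2) R) :
    pact α γ (ProjGenLinGroup.mk g) = ProjGenLinGroup.mk (GeneralLinearGroup.map (α γ) g) := rfl

lemma pact_mul (α : Γ →* (R →+* R)) (γ δ : Γ) (y : PGL(2, R)) :
    pact α γ (pact α δ y) = pact α (γ * δ) y := pmap_act α γ δ y

/-- The semidirect product of `PGL₂` with the acting group. -/
abbrev SD (α : Γ →* (R →+* R)) : Type := PGL(2, R) ⋊[pact α] Γ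

/-- Change of ring and of acting group. -/
noncomputable def sdMap {α : Γ →* (R →+* R)} {β : Γ' →* (S →+* S)} (f : R →+* S) (j : Γ →* Γ')
    (h : ∀ γ x, β (j γ) (f x) = f (α γ x)) : SD α →* SD β :=
  SemidirectProduct.map (ProjGenLinGroup.map f) j fun γ => MonoidHom.ext fun y => by
    change ((ProjGenLinGroup.map f).comp (ProjGenLinGroup.map (α γ))) y =
      ((ProjGenLinGroup.map (β (j γ))).comp (ProjGenLinGroup.map f)) y
    rw [← ProjGenLinGroup.map_comp, ← ProjGenLinGroup.map_comp]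
    congr 2
    exact RingHom.ext fun x => (h γ x).symm

lemma sdMap_eq_one {α : Γ →* (R →+* R)} {β : Γ' →* (S →+* S)} {f : R →+* S} {j : Γ →* Γ'}
    (h : ∀ γ x, β (j γ) (f x) = f (α γ x)) (hf : Function.Injective f)
    (hj : Function.Injective j) {y : SD α} (hy : sdMap f j h y = 1) : y = 1 := by
  obtain ⟨y, γ⟩ := y
  obtain ⟨g, rfl⟩ := ProjGenLinGroup.mk_surjective y
  have h1 : ProjGenLinGroup.mk (GeneralLinearGroup.map f g) = 1 :=
    congrArg SemidirectProduct.left hy
  have h2 : j γ = 1 := congrArg SemidirectProduct.right hy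
  rw [ProjGenLinGroup.mk_eq_one, mem_center_two] at h1
  refine SemidirectProduct.ext ?_ ((map_eq_one_iff j hj).1 h2)
  exact ProjGenLinGroup.mk_eq_one.2 ((mem_center_two g).2
    ⟨(map_eq_zero_iff f hf).1 h1.1, (map_eq_zero_iff f hf).1 h1.2.1, hf h1.2.2⟩)

lemma exists_finite_sd {p : ℕ} [Fact p.Prime] [Algebra (ZMod p) R] [Algebra.IsIntegral (ZMod p) R]
    [Finite Γ] (α : Γ →* (R →+* R)) (s : Set (SD α)) (hs : s.Finite) :
    ∃ H : Subgroup (SD α), Finite H ∧ s ⊆ H := by
  obtain ⟨H, hH, h⟩ := exists_finite_subgroup (p := p)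
    (⋃ γ, (fun y : SD α => pact α γ y.left) '' s) (Set.finite_iUnion fun γ => hs.image _)
  let P : Subgroup (SD α) :=
    { carrier := {y | ∀ γ, pact α γ y.left ∈ H}
      mul_mem' := fun {a b} ha hb γ => by
        rw [SemidirectProduct.mul_left, map_mul, pact_mul]
        exact H.mul_mem (ha _) (hb _)
      one_mem' := fun γ => by simp
      inv_mem' := fun {a} ha γ => by
        rw [SemidirectProduct.inv_left, pact_mul, map_inv]
        exact H.inv_mem (ha _) }
  refine ⟨P, Finite.of_injective (fun y : P => ((⟨_, y.2 1⟩, y.1.right) : H × Γ)) ?_,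
    fun y hy γ => h (Set.mem_iUnion.2 ⟨γ, y, hy, rfl⟩)⟩
  intro a b e
  exact Subtype.ext (SemidirectProduct.ext
    ((pact α 1).injective (congrArg (fun z : H × Γ => z.1.1) e)) (congrArg Prod.snd e))

/-- The action on functions by right translation. -/
def perm (Γ A : Type) [Group Γ] [CommRing A] : Γ →* ((Γ → A) →+* (Γ → A)) where
  toFun γ := RingHom.pi fun x => Pi.evalRingHom _ (x * γ)
  map_one' := by ext f x; simp
  map_mul' γ δ := by ext f x; simp [mul_assoc]

open MvPolynomial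

/-- Lower unipotent matrix with entry `X i`. -/
noncomputable def LZ (R : Type) [CommRing R] {σ : Type} (i : σ) : GL (Fin 2) (MvPolynomial σ R) :=
  ⟨!![1, 0; X i, 1], !![1, 0; -X i, 1], by simp [one_fin_two], by simp [one_fin_two]⟩

lemma lz_ne [IsDomain R] {σ : Type} (A : GL (Fin 2) R) (i j : σ)
    (h : i = j → ProjGenLinGroup.mk A ≠ 1) :
    (LZ R i * GeneralLinearGroup.map C A * (LZ R j)⁻¹).val 1 0 ≠ 0 := by
  classical
  have e : (LZ R i * GeneralLinearGroup.map C A * (LZ R j)⁻¹).val 1 0 =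
      X i * C (A 0 0) + C (A 1 0) - (X i * C (A 0 1) + C (A 1 1)) * X j := by
    change ((!![1, 0; X i, 1] * (GeneralLinearGroup.map C A).val * !![1, 0; -X j, 1] :
      Matrix (Fin 2) (Fin 2) (MvPolynomial σ R))) 1 0 = _
    simp [Matrix.mul_apply, Fin.sum_univ_two, Matrix.vecMul, dotProduct]
    ring
  rw [e]
  intro h0
  by_cases hij : i = j
  · apply h hij
    have h1 := congrArg (aeval fun _ => (Polynomial.X : Polynomial R)) h0
    have c0 := congrArg (Polynomial.coeff · 0) h1
    have c1 := congrArg (Polynomial.coeff · 1) h1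
    have c2 := congrArg (Polynomial.coeff · 2) h1
    simp [Polynomial.coeff_X, Polynomial.coeff_C] at c0 c1 c2
    exact ProjGenLinGroup.mk_eq_one.2 ((mem_center_two A).2 ⟨c2, c0, sub_eq_zero.1 c1⟩)
  · have c0 := congrArg (eval 0) h0
    have c1 := congrArg (eval (Pi.single i 1)) h0
    simp [Ne.symm hij] at c0 c1
    have hd := (A.isUnit.map (Matrix.detMonoidHom (n := Fin 2) (R := R))).ne_zero
    rw [c0, add_zero] at c1
    apply hd
    simp [Matrix.det_fin_two, c0, c1]

lemma tw_LZ (α : Γ →* (R →+* R)) (γ δ : Γ) :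
    GeneralLinearGroup.map (tw α γ) (LZ R δ) = LZ R (γ * δ) := by
  ext i j : 2
  fin_cases i <;> fin_cases j <;> simp [LZ]

lemma tw_UV (α : Γ →* (R →+* R)) (γ δ : Γ) (c : R) :
    GeneralLinearGroup.map (tw α γ) (UV c δ) = UV (α γ c) (γ * δ) := by
  ext i j : 2
  fin_cases i <;> fin_cases j <;> simp [UV]

lemma tw_cst (α : Γ →* (R →+* R)) (γ : Γ) (A : GL (Fin 2) R) :
    GeneralLinearGroup.map (tw α γ) (GeneralLinearGroup.map C A) =
      GeneralLinearGroup.map C (GeneralLinearGroup.map (α γ) A) := by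
  ext i j : 2
  simp

end Pool.Agent.P.MP_e9ee98_al
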