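import Pool.Agent.P.MP_e9ee98_al.TwH
import Pool.Agent.P.MP_e9ee98_al.Main

/-!
Cyclically reduced words under twisted representations of the factors.
-/

namespace Pool.Agent.P.MP_e9ee98_al

open Matrix Monoid MvPolynomial
open scoped MatrixGroups

variable {ι : Type} {G : ι → Type} [∀ i, Group (G i)]

lemma finite_image {Y : Type} [Group Y] (ρ : CoprodI G →* Y) (H : Subgroup Y) [Finite H]
    (h : ∀ i (g : G i), ρ (CoprodI.of g) ∈ H) (x : CoprodI G) :
    ∃ (H : Type) (_ : Group H) (_ : Finite H) (f : CoprodI G →* H),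
      orderOf (f x) = orderOf (ρ x) := by
  have hmem : ∀ x, ρ x ∈ H := by
    intro x
    induction x using CoprodI.induction_left with
    | one => simp
    | @mul i g x ih => rw [map_mul]; exact H.mul_mem (h i g) ih
  exact ⟨H, inferInstance, inferInstance, ρ.codRestrict H hmem, (Subgroup.orderOf_coe _).symm⟩

section
variable {k R Γ : Type} [Field k] [CommRing R] [Algebra k R] [Group Γ] {α : Γ →* (R →+* R)}

lemma tw_alg (hα : ∀ γ c, α γ (algebraMap k R c) = algebraMap k R c) (γ : Γ) (c : k) :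
    tw α γ (algebraMap k _ c) = algebraMap k _ c := by
  rw [MvPolynomial.algebraMap_apply, tw_C, hα]

/-- The representation of a factor, conjugated into general position. -/
noncomputable def gen (α : Γ →* (R →+* R)) (c : MvPolynomial Γ R) : SD α →* SD (tw (tw α)) :=
  (MulAut.conj (SemidirectProduct.inl (ProjGenLinGroup.mk
    (UV c 1 * GeneralLinearGroup.map C (LZ R 1))))).toMonoidHom.comp
      (sdMap (C.comp C) (MonoidHom.id Γ) fun γ x => by simp)

lemma gen_right (c : MvPolynomial Γ R) (y : SD α) : (gen α c y).right = y.right := by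
  simp [gen, sdMap]

lemma gen_left {c : MvPolynomial Γ R} (hc : ∀ γ, tw α γ c = c) (y : SD α) (A : GL (Fin 2) R)
    (hA : ProjGenLinGroup.mk A = y.left) (γ : Γ) :
    pact (tw (tw α)) γ (gen α c y).left = ProjGenLinGroup.mk (UV c γ *
      GeneralLinearGroup.map C (LZ R γ * GeneralLinearGroup.map C (GeneralLinearGroup.map (α γ) A) *
        (LZ R (γ * y.right))⁻¹) * (UV c (γ * y.right))⁻¹) := by
  have e : ∀ γ, pact (tw (tw α)) γ (ProjGenLinGroup.mk (UV c 1 *
      GeneralLinearGroup.map C (LZ R 1))) =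
      ProjGenLinGroup.mk (UV c γ * GeneralLinearGroup.map C (LZ R γ)) := fun γ => by
    rw [pact_mk, map_mul, tw_UV, tw_cst, tw_LZ, hc, mul_one]
  have e2 : (gen α c y).left = ProjGenLinGroup.mk (UV c 1 * GeneralLinearGroup.map C (LZ R 1)) *
      ProjGenLinGroup.mk (GeneralLinearGroup.map C (GeneralLinearGroup.map C A)) *
      (pact (tw (tw α)) y.right (ProjGenLinGroup.mk (UV c 1 *
        GeneralLinearGroup.map C (LZ R 1))))⁻¹ := by
    simp [gen, sdMap, ← hA, mul_assoc]
  rw [e2, map_mul, map_mul, map_inv, pact_mul, e, e, pact_mk, tw_cst, tw_cst]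
  simp [mul_assoc]

end

theorem core {p q : ℕ} [Fact p.Prime] [Fact q.Prime] {k : Type} [Field k] [CharP k p]
    [IsAlgClosed k] [Algebra (ZMod p) k] [Algebra.IsIntegral (ZMod p) k] {R : Type} [CommRing R]
    [IsDomain R] [Algebra k R] [Algebra.FiniteType k R] {Γ : Type} [Group Γ] [Finite Γ]
    (hΓ : IsPGroup q Γ) (α : Γ →* (R →+* R))
    (hα : ∀ γ c, α γ (algebraMap k R c) = algebraMap k R c) (ψ : ∀ i, G i →* SD α) (I : Finset ι)
    (hI : ∀ i ∉ I, ψ i = 1) (hfin : ∀ i, (Set.range (ψ i)).Finite) {L : List (Σ i, G i)}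
    (hL : Cyc L) (h1 : ∀ m ∈ L, ψ m.1 m.2 ≠ 1) (hq : ¬ q ∣ L.length + L.length)
    (hπ : (L.map fun m => (ψ m.1 m.2).right).prod = 1) {n : ℕ} (hn : 2 ≤ n) :
    ∃ (H : Type) (_ : Group H) (_ : Finite H) (f : CoprodI G →* H), orderOf (f (ev L)) = n := by
  classical
  have hp : p.Prime := Fact.out
  obtain ⟨a, n', hn', rfl⟩ := Nat.exists_eq_pow_mul_and_not_dvd (n := n) (by omega) p hp.ne_one
  have : NeZero (n' : k) := ⟨fun h => hn' ((CharP.cast_eq_zero_iff k p n').mp h)⟩
  have : NeZero n' := NeZero.of_neZero_natCast k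
  obtain ⟨ω, hω⟩ := HasEnoughRootsOfUnity.exists_primitiveRoot k n'
  obtain ⟨l, L', rfl, -, -, h2⟩ := hL
  let D := MvPolynomial Γ R
  let τ := tw (tw α)
  have hinj : Function.Injective (algebraMap k D) := (algebraMap k D).injective
  obtain ⟨lam, hlam⟩ : ∃ lam : ι → k, Set.InjOn lam I := by
    obtain ⟨e⟩ : Nonempty (I ↪ k) := by
      obtain ⟨e⟩ := nonempty_embedding_nat I
      exact ⟨e.trans (Infinite.natEmbedding k)⟩
    refine ⟨fun i => if hi : i ∈ I then e ⟨i, hi⟩ else 0, fun i hi j hj hij => ?_⟩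
    simp only [dif_pos (Finset.mem_coe.mp hi), dif_pos (Finset.mem_coe.mp hj)] at hij
    exact congrArg Subtype.val (e.injective hij)
  choose lf hlf using (ProjGenLinGroup.mk_surjective : Function.Surjective
    (ProjGenLinGroup.mk : GL (Fin 2) R → PGL(2, R)))
  let ρ : CoprodI G →* SD τ := CoprodI.lift fun i => (gen α (algebraMap k D (lam i))).comp (ψ i)
  let la : (Σ i, G i) → D := fun m => algebraMap k D (lam m.1)
  let π : (Σ i, G i) → Γ := fun m => (ψ m.1 m.2).right
  let B : Γ → (Σ i, G i) → GL (Fin 2) D := fun γ m => LZ R γ *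
    GeneralLinearGroup.map C (GeneralLinearGroup.map (α γ) (lf (ψ m.1 m.2).left)) *
      (LZ R (γ * π m))⁻¹
  have hρ : ∀ (L0 : List (Σ i, G i)) γ, pact τ γ (ρ (ev L0)).left =
      ProjGenLinGroup.mk (tm la B π γ L0) ∧ (ρ (ev L0)).right = (L0.map π).prod := by
    intro L0
    induction L0 with
    | nil => intro γ; simp [tm]
    | cons m L0 ih =>
      intro γ
      have e : ρ (CoprodI.of m.2) = gen α (la m) (ψ m.1 m.2) := by simp [ρ, la]
      rw [ev_cons, map_mul, SemidirectProduct.mul_left, SemidirectProduct.mul_right, map_mul,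
        pact_mul, e, gen_right, gen_left (fun γ => tw_alg hα γ _) _ _ (hlf _), (ih _).1, (ih 1).2,
        tm, ← map_mul]
      exact ⟨rfl, rfl⟩
  have hmem : ∀ m ∈ l :: L', m.1 ∈ I := fun m hm => by
    by_contra h
    exact h1 m hm (by rw [hI _ h]; rfl)
  obtain ⟨e, c, hc, hN⟩ := tm_shape la B π L' l l 1 (fun m hm γ => lz_ne _ _ _ fun h h0 => by
      refine h1 m hm (SemidirectProduct.ext ?_ (left_eq_mul.1 h))
      rw [← pact_mk, hlf] at h0
      exact (map_eq_one_iff _ (pact α γ).injective).1 h0) (by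
      refine List.IsChain.imp_of_mem_imp ?_ h2
      intro a b ha hb hab e
      have hm : ∀ c ∈ l :: L' ++ [l], c.1 ∈ I := fun c hc => hmem c (by
        rcases List.mem_append.mp hc with hc | hc
        · exact hc
        · rw [List.mem_singleton.mp hc]; simp)
      exact hab (hlam (hm a ha) (hm b hb) (hinj e)))
  rw [hπ, mul_one] at hN
  set N := (UV (la l) 1)⁻¹ * tm la B π 1 (l :: L') * UV (la l) (1 : Γ) with hNdef
  have hdet : N.val.det.totalDegree = 0 := (isUnit_iff_totalDegree_of_isReduced.1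
    (N.isUnit.map (Matrix.detMonoidHom (n := Fin 2) (R := MvPolynomial Γ D)))).2
  obtain ⟨v, hv, hv'⟩ := exists_point (k := k) hΓ (tw α) hq _
    (mul_ne_zero ((map_ne_zero _).2 (hω.ne_zero (NeZero.ne n'))) (mul_ne_zero hc hc))
    (hN.sum hN) (hN.trace hdet (algebraMap k D ω) (algebraMap k D ((1 + ω) ^ 2)))
  let θ : MvPolynomial Γ D →+* Polynomial k := eval₂Hom (Polynomial.C.comp (v.toRingHom.comp C))
    fun δ => Polynomial.X + Polynomial.C (v (X δ))
  have hθ : ∀ f, (θ f).eval 0 = v f := fun f => by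
    have : (Polynomial.evalRingHom 0).comp θ = v.toRingHom :=
      ringHom_ext (fun c => by simp [θ]) fun δ => by simp [θ]
    exact RingHom.congr_fun this f
  let Θ : ∀ K : ℕ, MvPolynomial Γ D →+* (Γ → AdjoinRoot (Polynomial.X ^ (K + 1) : Polynomial k)) :=
    fun K => RingHom.pi fun x => (AdjoinRoot.mk _).comp (θ.comp (τ x))
  obtain ⟨K, hK⟩ := exists_order_fam (p := p) (1 : Γ)
    (fun x => GeneralLinearGroup.map (θ.comp (τ x)) N)
    (MS.shape (θ.comp (τ 1)) (v.toRingHom.comp C) (fun δ => v (X δ)) (fun c => by simp [θ])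
      (fun δ => by simp [θ]) hN fun h => hv' 1 (by
        rw [act_one, map_mul, map_mul, map_mul, map_mul]
        exact mul_eq_zero_of_right _ (mul_eq_zero_of_left h _))) hn hω
    (fun x => by
      have h := hv x
      have e : ∀ c : k, v (τ x (C (algebraMap k D c))) = c := fun c => by
        rw [tw_C, tw_alg hα, ← MvPolynomial.algebraMap_apply, AlgHom.commutes]; rfl
      rw [map_sub, map_sub, map_mul, map_mul, map_mul, map_mul, e, e, map_pow, map_pow,
        sub_eq_zero, ← hθ, ← hθ, map_add, map_add] at h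
      exact h.trans (congrArg (fun z => (1 + ω) ^ 2 * Polynomial.eval 0 z)
        ((θ.comp (τ x)).map_det N.val)))
    (fun K => orderOf (ProjGenLinGroup.mk (GeneralLinearGroup.map (Θ K) N))) fun K j => by
      rw [orderOf_dvd_iff_pow_eq_one, ← map_pow, ← map_pow, ProjGenLinGroup.mk_eq_one,
        mem_center_two]
      simp only [Sc, ← Units.val_pow_eq_pow_val, ← map_pow, ← AdjoinRoot.mk_eq_zero, map_sub,
        sub_eq_zero, _root_.funext_iff, forall_and]
      rfl
  let A := AdjoinRoot (Polynomial.X ^ (K + 1) : Polynomial k)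
  have : Module.Finite k A := (Polynomial.monic_X.pow _).finite_adjoinRoot
  have : Algebra.IsIntegral (ZMod p) (Γ → A) := Algebra.IsIntegral.trans k
  let σ : SD τ →* SD (perm Γ A) := sdMap (Θ K) (MonoidHom.id Γ) fun γ f =>
    _root_.funext fun x => congrArg (fun z => AdjoinRoot.mk _ (θ z)) (act_mul τ x γ f).symm
  let ρ' := σ.comp ρ
  obtain ⟨H, hH, hS⟩ := exists_finite_sd (p := p) (perm Γ A)
    (⋃ i ∈ I, Set.range fun g : G i => ρ' (CoprodI.of g)) (by
      refine I.finite_toSet.biUnion fun i _ => ?_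
      refine ((hfin i).image fun y => σ (gen α (algebraMap k D (lam i)) y)).subset ?_
      rintro _ ⟨g, rfl⟩
      exact ⟨_, ⟨g, rfl⟩, by simp [ρ', ρ]⟩)
  obtain ⟨H', _, _, f, hf⟩ := finite_image ρ' H (fun i g => by
    by_cases hi : i ∈ I
    · exact hS (Set.mem_biUnion hi ⟨g, rfl⟩)
    · simp [ρ', ρ, hI i hi]) (ev (l :: L'))
  refine ⟨H', inferInstance, inferInstance, f, ?_⟩
  have e1 : ρ' (ev (l :: L')) = SemidirectProduct.inl
      (ProjGenLinGroup.mk (GeneralLinearGroup.map (Θ K) (tm la B π 1 (l :: L')))) := by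
    refine SemidirectProduct.ext ?_ ((hρ _ 1).2.trans hπ)
    have h := (hρ (l :: L') 1).1
    rw [map_one, MulAut.one_apply] at h
    exact congrArg (ProjGenLinGroup.map (Θ K)) h
  rw [hf, e1, orderOf_injective _ SemidirectProduct.inl_injective, ← hK, hNdef]
  simp only [map_mul, map_inv]
  refine SemiconjBy.orderOf_eq
    (ProjGenLinGroup.mk (GeneralLinearGroup.map (Θ K) (UV (la l) 1)))⁻¹ ?_
  simp [SemiconjBy]

end Pool.Agent.P.MP_e9ee98_al
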