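import Pool.Agent.P.MP_e9ee98_al.TwI
import Pool.Agent.P.MP_e9ee98_al.TwDefs

/-!
Free products of potent groups whose letters survive in twisted projective representations.
-/

namespace Pool.Agent.P.MP_e9ee98_al

open Matrix Monoid MvPolynomial
open scoped MatrixGroups

lemma add_inj {p : ℕ} [Fact p.Prime] {k : Type} [Field k] [Algebra (ZMod p) k] [Infinite k]
    {V : Type} [AddCommGroup V] [Finite V] [Module (ZMod p) V] :
    ∃ f : V →+ k, Function.Injective f := by
  have hk : Cardinal.aleph0 ≤ Module.rank (ZMod p) k := by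
    by_contra h
    have := Module.rank_lt_aleph0_iff.1 (not_le.1 h)
    have := Module.finite_of_finite (ZMod p) (M := k)
    exact not_finite k
  obtain ⟨f, hf⟩ := Module.le_rank_iff_exists_linearMap.1
    ((Cardinal.natCast_le_aleph0 (n := Module.finrank (ZMod p) V)).trans hk)
  let b := (Module.finBasis (ZMod p) V).equivFun
  exact ⟨(f ∘ₗ b.toLinearMap).toAddMonoidHom, hf.comp b.injective⟩

lemma exists_add_inj {p : ℕ} [Fact p.Prime] {k : Type} [Field k] [Algebra (ZMod p) k] [Infinite k]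
    {H : Type} [Group H] [Finite H] (M : Subgroup H) (h1 : ∀ x ∈ M, x ^ p = 1)
    (h2 : ∀ x ∈ M, ∀ y ∈ M, x * y = y * x) :
    ∃ l : M → k, (∀ x y, l (x * y) = l x + l y) ∧ ∀ x, l x = 0 → x = 1 := by
  let : CommGroup M := { (inferInstance : Group M) with
    mul_comm := fun x y => Subtype.ext (h2 _ x.2 _ y.2) }
  let : Module (ZMod p) (Additive M) := AddCommGroup.zmodModule fun x =>
    Additive.toMul.injective (Subtype.ext (h1 _ x.toMul.2))
  obtain ⟨f, hf⟩ := add_inj (p := p) (k := k) (V := Additive M)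
  exact ⟨fun x => f (Additive.ofMul x), fun x y => map_add f _ _,
    fun x h => (map_eq_zero_iff f hf).1 h⟩

lemma Surv.twisted {p q : ℕ} [Fact p.Prime] {G : Type} [Group G] {s : Set G} (h : Surv p q G s) :
    ∃ (Q : Type) (_ : Group Q) (_ : Finite Q)
      (ψ : G →* SD (tw (1 : Q →* (AlgebraicClosure (ZMod p) →+* AlgebraicClosure (ZMod p))))),
      IsPGroup q Q ∧ (Set.range ψ).Finite ∧ ∀ g ∈ s, ψ g ≠ 1 := by
  classical
  let k := AlgebraicClosure (ZMod p)
  rcases h with ⟨Q, _, _, f, π, hQ, hf, h⟩ | ⟨H, _, _, f, M, _, h1, h2, hQ, h⟩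
  · let F : PGL(2, k) × Q →* SD (1 : Q →* (k →+* k)) :=
      { toFun y := ⟨y.1, y.2⟩
        map_one' := rfl
        map_mul' y z := SemidirectProduct.ext
          (congrArg (y.1 * ·) (pmap_one (1 : Q →* (k →+* k)) z.1).symm) rfl }
    let c := sdMap (α := (1 : Q →* (k →+* k))) (β := tw (1 : Q →* (k →+* k))) C (MonoidHom.id Q)
      fun γ x => tw_C _ _ _
    refine ⟨Q, inferInstance, inferInstance, (c.comp F).comp (f.prod π), hQ, ?_, fun g hg h0 => ?_⟩
    · refine (((Set.toFinite (f.range : Set PGL(2, k))).prod (Set.finite_univ (α := Q))).image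
        (c.comp F)).subset ?_
      rintro _ ⟨g, rfl⟩
      exact ⟨(f g, π g), ⟨⟨g, rfl⟩, trivial⟩, rfl⟩
    · have : F (f g, π g) = 1 :=
        sdMap_eq_one (fun γ x => tw_C _ _ _) (C_injective Q k) Function.injective_id h0
      exact (h g hg).elim (· (congrArg SemidirectProduct.left this))
        (· (congrArg SemidirectProduct.right this))
  · obtain ⟨l, hl, hl'⟩ := exists_add_inj (k := k) M h1 h2
    have := Fintype.ofFinite (H ⧸ M)
    let c : H → H ⧸ M → M := fun x γ => ⟨γ.out⁻¹ * x * ((x : H ⧸ M)⁻¹ * γ).out, by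
      rw [← QuotientGroup.eq_one_iff]; simp⟩
    have hc : ∀ x y γ, c (x * y) γ = c x γ * c y ((x : H ⧸ M)⁻¹ * γ) := fun x y γ =>
      Subtype.ext (by simp [c, mul_assoc])
    let v : H → MvPolynomial (H ⧸ M) k := fun x => ∑ γ, C (l (c x γ)) * X γ
    have hv : ∀ x y, v (x * y) = v x + tw (1 : H ⧸ M →* (k →+* k)) x (v y) := fun x y => by
      simp only [v, hc, hl, map_add, add_mul, Finset.sum_add_distrib, map_sum, map_mul, tw_C, tw_X]
      congr 1
      exact Fintype.sum_equiv (Equiv.mulLeft (x : H ⧸ M)⁻¹) _ _ fun γ => by simp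
    let F : H →* SD (tw (1 : H ⧸ M →* (k →+* k))) := MonoidHom.mk'
      (fun x => ⟨ProjGenLinGroup.mk (GeneralLinearGroup.upperRightHom (v x)), x⟩) fun x y => by
        refine SemidirectProduct.ext ?_ rfl
        rw [SemidirectProduct.mul_left, pact_mk, ← map_mul, hv, AddChar.map_add_eq_mul]
        refine congrArg (fun z => ProjGenLinGroup.mk (_ * z)) ?_
        ext i j : 2
        fin_cases i <;> fin_cases j <;> simp
    refine ⟨H ⧸ M, inferInstance, inferInstance, F.comp f, hQ,
      (Set.finite_range F).subset ?_, fun g hg h0 => h g hg ?_⟩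
    · rintro _ ⟨g, rfl⟩
      exact ⟨f g, rfl⟩
    · have e1 : ProjGenLinGroup.mk (GeneralLinearGroup.upperRightHom (v (f g))) = 1 :=
        congrArg SemidirectProduct.left h0
      have e2 : (f g : H ⧸ M) = 1 := congrArg SemidirectProduct.right h0
      have e3 : v (f g) = 0 := ((mem_center_two _).1 (ProjGenLinGroup.mk_eq_one.1 e1)).1
      have e4 := congrArg (eval (Pi.single 1 1)) e3
      have e5 : l (c (f g) 1) = 0 := by simpa [v, Pi.single_apply] using e4
      have e6 := congrArg Subtype.val (hl' _ e5)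
      simpa [c, e2, mul_assoc, inv_mul_eq_one] using e6

variable {ι : Type} {G : ι → Type} [∀ i, Group (G i)]

/-- The retraction of a free product to one factor. -/
noncomputable def retr [DecidableEq ι] (i : ι) : CoprodI G →* G i :=
  CoprodI.lift (Function.update (fun _ => 1) i (MonoidHom.id (G i)))

theorem potent_twisted (h1 : ∀ i, Potent (G i))
    (h2 : ∀ s : Finset (Σ i, G i), (∀ m ∈ s, m.2 ≠ 1) → ∀ N : ℕ,
      ∃ (p q : ℕ) (_ : Fact p.Prime), q.Prime ∧ N < q ∧ ∀ i, Surv p q (G i) {g | ⟨i, g⟩ ∈ s}) :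
    Potent (CoprodI G) := by
  classical
  intro x n hn hx
  rcases Nat.eq_or_lt_of_le hn with rfl | hn2
  · exact ⟨PUnit, inferInstance, inferInstance, 1, by simp⟩
  obtain ⟨L, hL, h⟩ := exists_cyc x
  refine potent_conj hL ?_
  obtain ⟨c, hc⟩ := hL
  rw [← SemiconjBy.orderOf_eq _ hc] at hx
  have hret : ∀ (y : CoprodI G) i, n ∣ orderOf (retr i y) →
      ∃ (H : Type) (_ : Group H) (_ : Finite H) (f : CoprodI G →* H), orderOf (f y) = n := by
    intro y i hy
    obtain ⟨H, _, _, f, hf⟩ := h1 i _ n hn hy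
    exact ⟨H, inferInstance, inferInstance, f.comp (retr i), hf⟩
  rcases h with rfl | ⟨⟨i, g⟩, rfl⟩ | h
  · simp at hx; omega
  · simp only [ev_cons, ev_nil, mul_one] at hx ⊢
    rw [orderOf_injective CoprodI.of (CoprodI.of_injective i)] at hx
    exact hret _ i (by simpa [retr] using hx)
  by_cases h0 : ∃ i, orderOf (retr i (ev L)) = 0
  · obtain ⟨i, hi⟩ := h0
    exact hret _ i (hi ▸ dvd_zero n)
  push Not at h0
  let I : Finset ι := L.toFinset.image Sigma.fst
  have hLI : ∀ m ∈ L, m.1 ∈ I := fun m hm => Finset.mem_image_of_mem _ (List.mem_toFinset.mpr hm)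
  have hL1 : ∀ m ∈ L, m.2 ≠ 1 := let ⟨_, _, _, _, h, _⟩ := h; h
  have hL0 : 0 < L.length := let ⟨_, _, h, _⟩ := h; by simp [h]
  obtain ⟨p, q, _, hq, hN, hS⟩ := h2 L.toFinset (fun m hm => hL1 m (List.mem_toFinset.1 hm))
    (L.length + L.length + ∑ i ∈ I, orderOf (retr i (ev L)))
  have : Fact q.Prime := ⟨hq⟩
  let k := AlgebraicClosure (ZMod p)
  choose Q _ _ ψ hQ hψ hψ' using fun i => (hS i).twisted
  let Γ := (i : I) → Q i
  have hΓ : IsPGroup q Γ := fun g => by
    choose a ha using fun i : I => hQ i (g i)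
    refine ⟨∑ i, a i, funext fun i => ?_⟩
    obtain ⟨b, hb⟩ := Nat.exists_eq_add_of_le
      (Finset.single_le_sum (fun j _ => Nat.zero_le (a j)) (Finset.mem_univ i))
    rw [hb, Pi.pow_apply, pow_add, pow_mul, ha, one_pow, Pi.one_apply]
  let j : ∀ i : I, Q i →* Γ := fun i => MonoidHom.mulSingle (fun i : I => Q i) i
  have hj : ∀ i, Function.Injective (j i) := fun i =>
    Pi.mulSingle_injective (M := fun i : I => Q i) i
  have he : ∀ (i : I) γ x, tw (1 : Γ →* (k →+* k)) (j i γ) ((rename (j i)).toRingHom x) =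
      (rename (j i) : _ →ₐ[k] _).toRingHom (tw (1 : Q i →* (k →+* k)) γ x) := fun i γ x => by
    have : (tw (1 : Γ →* (k →+* k)) (j i γ)).comp (rename (j i)).toRingHom =
        (rename (j i) : _ →ₐ[k] _).toRingHom.comp (tw (1 : Q i →* (k →+* k)) γ) :=
      ringHom_ext (fun c => by simp) fun δ => by simp
    exact RingHom.congr_fun this x
  let χ : ∀ i, G i →* SD (tw (1 : Γ →* (k →+* k))) := fun i =>
    if hi : i ∈ I then (sdMap _ (j ⟨i, hi⟩) (he ⟨i, hi⟩)).comp (ψ i) else 1
  refine core (p := p) (k := k) hΓ _ (fun γ c => tw_C _ _ _) χ I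
    (fun i hi => dif_neg hi) (fun i => ?_) h (fun m hm h0 => ?_)
    (Nat.not_dvd_of_pos_of_lt (by omega) (by omega)) ?_ hn2
  · by_cases hi : i ∈ I
    · simp only [χ, dif_pos hi, MonoidHom.coe_comp, Set.range_comp]
      exact (hψ i).image _
    · simp only [χ, dif_neg hi]
      exact (Set.finite_singleton 1).subset (by rintro _ ⟨g, rfl⟩; rfl)
  · simp only [χ, dif_pos (hLI m hm)] at h0
    exact hψ' m.1 m.2 (List.mem_toFinset.2 hm)
      (sdMap_eq_one (he ⟨_, hLI m hm⟩) (rename_injective _ (hj _)) (hj _) h0)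
  · have e1 : ∀ L0 : List (Σ i, G i), (L0.map fun m => (χ m.1 m.2).right).prod =
        (CoprodI.lift χ (ev L0)).right := fun L0 => by
      induction L0 with
      | nil => simp
      | cons m L0 ih => simp [ih]
    rw [e1]
    funext i
    have e2 : ((Pi.evalMonoidHom _ i).comp SemidirectProduct.rightHom).comp (CoprodI.lift χ) =
        (SemidirectProduct.rightHom.comp (ψ i)).comp (retr i.1) := by
      refine CoprodI.ext_hom _ _ fun i' => MonoidHom.ext fun g => ?_
      by_cases hi : i' = i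
      · subst hi
        simp only [χ, retr, dif_pos i.2, MonoidHom.comp_apply, CoprodI.lift_of, Function.update_self]
        exact Pi.mulSingle_eq_same (M := fun i : I => Q i) i _
      · by_cases hi' : i' ∈ I
        · have : i ≠ ⟨i', hi'⟩ := fun h => hi (congrArg Subtype.val h).symm
          simp only [χ, retr, dif_pos hi', MonoidHom.comp_apply, CoprodI.lift_of,
            Function.update_of_ne hi, MonoidHom.one_apply, map_one]
          exact Pi.mulSingle_eq_of_ne (M := fun i : I => Q i) this _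
        · simp only [χ, retr, dif_neg hi', MonoidHom.comp_apply, CoprodI.lift_of,
            Function.update_of_ne hi, MonoidHom.one_apply, map_one]
    have e3 := DFunLike.congr_fun e2 (ev L)
    refine e3.trans (by_contra fun h3 => ?_)
    have h4 : q ∣ orderOf (retr i.1 (ev L)) := ((hQ i).dvd_orderOf h3).trans
      (orderOf_map_dvd (SemidirectProduct.rightHom.comp (ψ i)) _)
    have h5 := Finset.single_le_sum (f := fun i => orderOf (retr i (ev L)))
      (fun j _ => Nat.zero_le _) i.2
    exact Nat.not_dvd_of_pos_of_lt (Nat.pos_of_ne_zero (h0 i)) (by omega) h4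

end Pool.Agent.P.MP_e9ee98_al
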