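import Mathlib

/-!
Cyclically reduced words in a free product of groups.
-/

namespace Pool.Agent.P.MP_e9ee98_al

open Monoid

variable {ι : Type} {G : ι → Type} [∀ i, Group (G i)]

/-- The product of a list of letters. -/
def ev (L : List (Σ i, G i)) : CoprodI G := (L.map fun l => CoprodI.of l.2).prod

@[simp] lemma ev_nil : ev ([] : List (Σ i, G i)) = 1 := rfl

@[simp] lemma ev_cons (l : Σ i, G i) (L : List (Σ i, G i)) :
    ev (l :: L) = CoprodI.of l.2 * ev L := by simp [ev]

@[simp] lemma ev_append (L L' : List (Σ i, G i)) : ev (L ++ L') = ev L * ev L' := by simp [ev]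

lemma exists_ev (x : CoprodI G) : ∃ L, ev L = x := by
  induction x using CoprodI.induction_left with
  | one => exact ⟨[], rfl⟩
  | mul g x ih => obtain ⟨L, rfl⟩ := ih; exact ⟨⟨_, g⟩ :: L, by simp⟩

/-- A cyclically reduced word of length at least two. -/
def Cyc (L : List (Σ i, G i)) : Prop :=
  ∃ l L', L = l :: L' ∧ L' ≠ [] ∧ (∀ m ∈ L, m.2 ≠ 1) ∧
    List.IsChain (fun a b : Σ i, G i => a.1 ≠ b.1) (L ++ [l])

lemma cyc_aux : ∀ (n : ℕ) (L : List (Σ i, G i)), L.length ≤ n →
    ∃ L', IsConj (ev L') (ev L) ∧ (L' = [] ∨ (∃ l, L' = [l]) ∨ Cyc L') := by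
  intro n
  induction n with
  | zero => intro L hL; exact ⟨L, IsConj.refl _, Or.inl (List.length_eq_zero_iff.mp (by omega))⟩
  | succ n ih =>
    intro L hL
    by_cases h1 : ∃ m ∈ L, m.2 = 1
    · obtain ⟨m, hm, hm1⟩ := h1
      obtain ⟨s, t, rfl⟩ := List.append_of_mem hm
      obtain ⟨L', h, h'⟩ := ih (s ++ t) (by simp at hL ⊢; omega)
      exact ⟨L', by simpa [hm1] using h, h'⟩
    push Not at h1
    by_cases h2 : ¬ List.IsChain (fun a b : Σ i, G i => a.1 ≠ b.1) L
    · rw [List.isChain_iff_forall_rel_of_append_cons_cons] at h2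
      push Not at h2
      obtain ⟨⟨i, a⟩, ⟨j, b⟩, s, t, rfl, hij⟩ := h2
      simp only at hij
      subst hij
      obtain ⟨L', h, h'⟩ := ih (s ++ ⟨i, a * b⟩ :: t) (by simp at hL ⊢; omega)
      exact ⟨L', by simpa [mul_assoc] using h, h'⟩
    push Not at h2
    rcases L with _ | ⟨l, L'⟩
    · exact ⟨[], IsConj.refl _, Or.inl rfl⟩
    rcases List.eq_nil_or_concat L' with rfl | ⟨s, m, rfl⟩
    · exact ⟨[l], IsConj.refl _, Or.inr (Or.inl ⟨l, rfl⟩)⟩
    by_cases h3 : m.1 = l.1
    · obtain ⟨i, a⟩ := l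
      obtain ⟨j, b⟩ := m
      simp only at h3
      subst h3
      obtain ⟨L', h, h'⟩ := ih (⟨j, b * a⟩ :: s) (by simp at hL ⊢; omega)
      refine ⟨L', h.trans ?_, h'⟩
      rw [isConj_iff]
      exact ⟨(CoprodI.of b)⁻¹, by simp [mul_assoc]⟩
    · refine ⟨_, IsConj.refl _, Or.inr (Or.inr ⟨l, _, rfl, by simp, h1, ?_⟩)⟩
      rw [List.isChain_append]
      refine ⟨h2, by simp, ?_⟩
      intro x hx y hy
      simp only [List.concat_eq_append, ← List.cons_append, List.getLast?_append, List.getLast?_singleton,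
        Option.some_or, Option.mem_def, Option.some.injEq] at hx
      simp only [List.head?_cons, Option.mem_def, Option.some.injEq] at hy
      subst hx hy
      exact h3

lemma exists_cyc (x : CoprodI G) :
    ∃ L, IsConj (ev L) x ∧ (L = [] ∨ (∃ l, L = [l]) ∨ Cyc L) := by
  obtain ⟨L, rfl⟩ := exists_ev x
  exact cyc_aux _ L le_rfl

end Pool.Agent.P.MP_e9ee98_al
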